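import Pool.Agent.H75Rib.Surf

/-!
# Interlacement of the curves ending on a knot
-/

namespace Pool.Agent.H75Rib

set_option linter.unusedSimpArgs false

open Pool.Agent.Y468.SR Hs
open Pool.Agent.Y874.TP (colour)
open Pool.Agent.Y874.TP2 (sg)
open Pool.Agent.R800.TP (ends crs curve)

/-- the number of passages on the curve `κ`, modulo 2 -/
def nn : List Pass → Cu → ZMod 2
  | [], _ => 0
  | p :: w, κ => (if ends p = κ then 1 else 0) + nn w κ

/-- the number of pairs of a passage on the curve `κ` and a later passage on the curve `l`, modulo 2 -/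
def ll : List Pass → Cu → Cu → ZMod 2
  | [], _, _ => 0
  | p :: w, κ, l => (if ends p = κ then nn w l else 0) + ll w κ l

/-- The row of the curve `κ` in the interlacement matrix of the word `w`: if `κ` and `l` are different
curves each of which has two ends on the knot with the word `w`, the value at `l` is one if the ends
of `κ` separate the ends of `l`, and zero otherwise. -/
def row (w : List Pass) (κ : Cu) : Cu → ZMod 2 := fun l => if κ = l then 0 else ll w κ l

@[simp] theorem nn_nil (κ : Cu) : nn [] κ = 0 := rfl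
@[simp] theorem nn_cons (p : Pass) (w : List Pass) (κ : Cu) :
    nn (p :: w) κ = (if ends p = κ then 1 else 0) + nn w κ := rfl
@[simp] theorem ll_nil (κ l : Cu) : ll [] κ l = 0 := rfl
@[simp] theorem ll_cons (p : Pass) (w : List Pass) (κ l : Cu) :
    ll (p :: w) κ l = (if ends p = κ then nn w l else 0) + ll w κ l := rfl

@[simp] theorem nn_append (x y : List Pass) (κ : Cu) : nn (x ++ y) κ = nn x κ + nn y κ := by
  induction x with
  | nil => simp
  | cons p x ih => rw [List.cons_append, nn_cons, nn_cons, ih, add_assoc]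

@[simp] theorem ll_append (x y : List Pass) (κ l : Cu) :
    ll (x ++ y) κ l = ll x κ l + ll y κ l + nn x κ * nn y l := by
  induction x with
  | nil => simp
  | cons p x ih =>
    rw [List.cons_append, ll_cons, ll_cons, ih, nn_append, nn_cons]
    split_ifs <;> ring

theorem nn_count (w : List Pass) (κ : Cu) : nn w κ = ((w.map ends).count κ : ZMod 2) := by
  induction w with
  | nil => simp
  | cons p w ih =>
    rw [nn_cons, ih, List.map_cons, List.count_cons]
    by_cases h : ends p = κ
    · simp [h, add_comm]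
    · simp [h]

theorem cast_sg (p : Pass) : ((sg p : ℤ) : ZMod 2) = 1 := by
  rcases sg_cases p with h | h <;> rw [h] <;> decide

theorem cast_single (κ l : Cu) (p : Pass) :
    (((Pi.single κ (sg p) : Cu → ℤ) l : ℤ) : ZMod 2) = if κ = l then 1 else 0 := by
  by_cases h : κ = l
  · subst h
    rw [Pi.single_eq_same, if_pos rfl, cast_sg]
  · rw [ps_ne (Ne.symm h), if_neg h]
    simp

variable {Z : ℕ → Prop}

theorem wv_v_cast {w : List Pass} (hw : ∀ p ∈ w, ¬Z (colour p.crossing)) (κ : Cu) :
    (((wv Z w).v κ : ℤ) : ZMod 2) = nn w κ := by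
  induction w with
  | nil => simp
  | cons p w ih =>
    rw [wv_cons, mul_v, Pi.add_apply, nn_cons, ← ih fun q hq => hw q (by simp [hq])]
    unfold fv cv
    simp only [if_neg (hw p (by simp))]
    push_cast
    rw [cast_single]

theorem wv_a {w : List Pass} (hw : ∀ p ∈ w, ¬Z (colour p.crossing)) (κ l : Cu) :
    (wv Z w).a κ l = row w κ l := by
  induction w with
  | nil => simp [row]
  | cons p w ih =>
    have hw' : ∀ q ∈ w, ¬Z (colour q.crossing) := fun q hq => hw q (by simp [hq])
    rw [wv_cons, mul_a, Pi.add_apply, Pi.add_apply, Pi.add_apply, Pi.add_apply, ih hw']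
    unfold row fv cv be
    simp only [if_neg (hw p (by simp)), Pi.zero_apply, zero_add]
    by_cases h : κ = l
    · simp [h]
    · rw [if_neg h, if_neg h, if_neg h, ll_cons, cast_single, wv_v_cast hw']
      split_ifs <;> ring

/-- the balance of the ends of all curves -/
def Bal (w : List Pass) : Prop := (wv (fun _ => False) w).v = 0

theorem nn_of_bal {w : List Pass} (h : Bal w) (κ : Cu) : nn w κ = 0 := by
  rw [← wv_v_cast (Z := fun _ => False) (fun _ _ h => h) κ, h]
  simp

theorem ch2 (x : ZMod 2) : x + x = 0 := CharTwo.add_self_eq_zero x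

theorem row_rotate {x y : List Pass} (h : ∀ κ, nn (x ++ y) κ = 0) :
    row (y ++ x) = row (x ++ y) := by
  have e : ∀ κ, nn x κ = nn y κ := by
    intro κ
    have h1 := h κ
    rw [nn_append] at h1
    have h2 := ch2 (nn y κ)
    have : nn x κ = nn x κ + (nn y κ + nn y κ) := by rw [h2, add_zero]
    rw [this, ← add_assoc, h1, zero_add]
  funext κ l
  unfold row
  split_ifs
  · rfl
  · rw [ll_append, ll_append, e κ, e l]
    ring

theorem ll_symm (w : List Pass) {κ l : Cu} (h : κ ≠ l) :
    ll w κ l + ll w l κ = nn w κ * nn w l := by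
  induction w with
  | nil => simp
  | cons p w ih =>
    rw [ll_cons, ll_cons, nn_cons, nn_cons]
    by_cases h1 : ends p = κ
    · have h2 : ends p ≠ l := fun h2 => h (h1.symm.trans h2)
      rw [if_pos h1, if_neg h2, if_pos h1, if_neg h2]
      linear_combination ih
    · by_cases h2 : ends p = l
      · rw [if_neg h1, if_pos h2, if_neg h1, if_pos h2]
        linear_combination ih
      · rw [if_neg h1, if_neg h2, if_neg h1, if_neg h2]
        linear_combination ih

theorem row_symm {w : List Pass} (h : ∀ κ, nn w κ = 0) (κ l : Cu) : row w κ l = row w l κ := by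
  unfold row
  by_cases h1 : κ = l
  · rw [if_pos h1, if_pos h1.symm]
  · rw [if_neg h1, if_neg (Ne.symm h1)]
    have h2 := ll_symm w h1
    rw [h κ, zero_mul] at h2
    have h3 := ch2 (ll w l κ)
    have : ll w κ l = ll w κ l + (ll w l κ + ll w l κ) := by rw [h3, add_zero]
    rw [this, ← add_assoc, h2, zero_add]

theorem row_self (w : List Pass) (κ : Cu) : row w κ κ = 0 := by simp [row]

/-! ### pivots -/

/-- the pivot map -/
noncomputable def piv (w : List Pass) (κ l : Cu) : (Cu → ZMod 2) →ₗ[ZMod 2] (Cu → ZMod 2) :=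
  LinearMap.id + (LinearMap.proj κ).smulRight (row w l) + (LinearMap.proj l).smulRight (row w κ)

theorem piv_apply (w : List Pass) (κ l : Cu) (x : Cu → ZMod 2) (a : Cu) :
    piv w κ l x a = x a + x κ * row w l a + x l * row w κ a := by
  simp [piv]

theorem nn_zero_of {w : List Pass} {κ : Cu} (h : ∀ p ∈ w, ends p ≠ κ) : nn w κ = 0 := by
  induction w with
  | nil => rfl
  | cons p w ih =>
    rw [nn_cons, if_neg (h p (by simp)), ih fun q hq => h q (by simp [hq]), add_zero]

theorem ll_zero_left {w : List Pass} {κ : Cu} (h : ∀ p ∈ w, ends p ≠ κ) (l : Cu) :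
    ll w κ l = 0 := by
  induction w with
  | nil => rfl
  | cons p w ih =>
    rw [ll_cons, if_neg (h p (by simp)), ih fun q hq => h q (by simp [hq]), add_zero]

theorem ll_zero_right {w : List Pass} {l : Cu} (h : ∀ p ∈ w, ends p ≠ l) (κ : Cu) :
    ll w κ l = 0 := by
  induction w with
  | nil => rfl
  | cons p w ih =>
    rw [ll_cons, ih fun q hq => h q (by simp [hq]), nn_zero_of fun q hq => h q (by simp [hq])]
    simp

theorem piv_id : ∀ S a b c a' b' c' : ZMod 2,
    S + a * ((a' + b' + c') + c' + b') + (a + b + c) * (c' + b') + c * b' =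
      S + a * (b' + c' + (a' + b' + c')) + b * (c' + (a' + b' + c')) + c * (a' + b' + c') +
        (a + b) * (b' + c' + (a' + b' + c') + (a' + b' + c')) +
        (a + a + b + c) * (a' + b' + c' + (a' + b' + c') + c' + (a' + b' + c')) := by
  decide

section
variable {p q : Pass} {κ l : Cu} {A B C D : List Pass}

/-- the word before the pivot -/
def w0 (p q : Pass) (A B C D : List Pass) : List Pass :=
  p :: (A ++ q :: (B ++ p.mate :: (C ++ q.mate :: D)))

/-- the word after the pivot -/
def w1 (A B C D : List Pass) : List Pass := A ++ (D ++ (C ++ B))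

theorem row_pivot (hp : ends p = κ) (hpm : ends p.mate = κ) (hq : ends q = l)
    (hqm : ends q.mate = l) (hκl : κ ≠ l) (h1 : ∀ r ∈ w1 A B C D, ends r ≠ κ)
    (h2 : ∀ r ∈ w1 A B C D, ends r ≠ l) (hb : ∀ μ, nn (w0 p q A B C D) μ = 0) (μ : Cu) :
    row (w1 A B C D) μ = piv (w0 p q A B C D) κ l (row (w0 p q A B C D) μ) := by
  have hA : ∀ r ∈ A, r ∈ w1 A B C D := fun r hr => by simp [w1, hr]
  have hB : ∀ r ∈ B, r ∈ w1 A B C D := fun r hr => by simp [w1, hr]
  have hC : ∀ r ∈ C, r ∈ w1 A B C D := fun r hr => by simp [w1, hr]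
  have hD : ∀ r ∈ D, r ∈ w1 A B C D := fun r hr => by simp [w1, hr]
  have nA : nn A κ = 0 := nn_zero_of fun r hr => h1 r (hA r hr)
  have nB : nn B κ = 0 := nn_zero_of fun r hr => h1 r (hB r hr)
  have nC : nn C κ = 0 := nn_zero_of fun r hr => h1 r (hC r hr)
  have nD : nn D κ = 0 := nn_zero_of fun r hr => h1 r (hD r hr)
  have nA' : nn A l = 0 := nn_zero_of fun r hr => h2 r (hA r hr)
  have nB' : nn B l = 0 := nn_zero_of fun r hr => h2 r (hB r hr)
  have nC' : nn C l = 0 := nn_zero_of fun r hr => h2 r (hC r hr)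
  have nD' : nn D l = 0 := nn_zero_of fun r hr => h2 r (hD r hr)
  have lA : ∀ ν, ll A κ ν = 0 := ll_zero_left fun r hr => h1 r (hA r hr)
  have lB : ∀ ν, ll B κ ν = 0 := ll_zero_left fun r hr => h1 r (hB r hr)
  have lC : ∀ ν, ll C κ ν = 0 := ll_zero_left fun r hr => h1 r (hC r hr)
  have lD : ∀ ν, ll D κ ν = 0 := ll_zero_left fun r hr => h1 r (hD r hr)
  have lA' : ∀ ν, ll A l ν = 0 := ll_zero_left fun r hr => h2 r (hA r hr)
  have lB' : ∀ ν, ll B l ν = 0 := ll_zero_left fun r hr => h2 r (hB r hr)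
  have lC' : ∀ ν, ll C l ν = 0 := ll_zero_left fun r hr => h2 r (hC r hr)
  have lD' : ∀ ν, ll D l ν = 0 := ll_zero_left fun r hr => h2 r (hD r hr)
  have rA : ∀ ν, ll A ν κ = 0 := ll_zero_right fun r hr => h1 r (hA r hr)
  have rB : ∀ ν, ll B ν κ = 0 := ll_zero_right fun r hr => h1 r (hB r hr)
  have rC : ∀ ν, ll C ν κ = 0 := ll_zero_right fun r hr => h1 r (hC r hr)
  have rD : ∀ ν, ll D ν κ = 0 := ll_zero_right fun r hr => h1 r (hD r hr)
  have rA' : ∀ ν, ll A ν l = 0 := ll_zero_right fun r hr => h2 r (hA r hr)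
  have rB' : ∀ ν, ll B ν l = 0 := ll_zero_right fun r hr => h2 r (hB r hr)
  have rC' : ∀ ν, ll C ν l = 0 := ll_zero_right fun r hr => h2 r (hC r hr)
  have rD' : ∀ ν, ll D ν l = 0 := ll_zero_right fun r hr => h2 r (hD r hr)
  have hlκ := Ne.symm hκl
  -- the entry of the two curves
  have e1 : row (w0 p q A B C D) κ l = 1 := by
    unfold row w0
    rw [if_neg hκl]
    simp only [ll_cons, ll_append, nn_cons, nn_append, hp, hpm, hq, hqm, if_true, hκl, hlκ,
      if_false, nA', nB', nC', nD', lA, lB, lC, lD, nA, nB, nC, nD]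
    decide
  have e2 : row (w0 p q A B C D) l κ = 1 := by rw [row_symm hb]; exact e1
  have z1 : row (w1 A B C D) κ = 0 := by
    funext ν
    unfold row
    split_ifs
    · rfl
    · exact ll_zero_left h1 ν
  have z2 : row (w1 A B C D) l = 0 := by
    funext ν
    unfold row
    split_ifs
    · rfl
    · exact ll_zero_left h2 ν
  funext ν
  rw [piv_apply]
  by_cases c1 : μ = κ
  · rw [c1, z1, row_self, e1, zero_mul, one_mul, add_zero, ch2]; rfl
  by_cases c2 : μ = l
  · rw [c2, z2, row_self, e2, zero_mul, one_mul, add_zero, ch2]; rfl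
  by_cases c3 : ν = κ
  · rw [c3, row_self, e2, mul_zero, mul_one, add_zero, ch2]
    unfold row
    rw [if_neg c1]
    exact ll_zero_right h1 μ
  by_cases c4 : ν = l
  · rw [c4, row_self, e1, mul_zero, mul_one, add_zero, ch2]
    unfold row
    rw [if_neg c2]
    exact ll_zero_right h2 μ
  by_cases c5 : μ = ν
  · rw [← c5, row_self, row_self, row_symm hb l μ, row_symm hb κ μ, zero_add, mul_comm, ch2]
  have d1 : κ ≠ μ := Ne.symm c1
  have d2 : l ≠ μ := Ne.symm c2
  have d3 : κ ≠ ν := Ne.symm c3
  have d4 : l ≠ ν := Ne.symm c4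
  have dD : ∀ ξ, κ ≠ ξ → l ≠ ξ → nn D ξ = nn A ξ + nn B ξ + nn C ξ := by
    intro ξ k1 k2
    have h3 := hb ξ
    unfold w0 at h3
    simp only [nn_cons, nn_append, hp, hpm, hq, hqm, k1, k2, if_false, zero_add] at h3
    have h4 := ch2 (nn A ξ + nn B ξ + nn C ξ)
    linear_combination h3 - h4
  have f1 : ll (w0 p q A B C D) μ ν = (ll A μ ν + ll B μ ν + ll C μ ν + ll D μ ν) +
      nn A μ * (nn B ν + nn C ν + nn D ν) + nn B μ * (nn C ν + nn D ν) + nn C μ * nn D ν := by
    unfold w0
    simp only [ll_cons, ll_append, nn_cons, nn_append, hp, hpm, hq, hqm, d1, d2, d3, d4, if_false]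
    ring
  have f2 : ll (w1 A B C D) μ ν = (ll A μ ν + ll B μ ν + ll C μ ν + ll D μ ν) +
      nn A μ * (nn D ν + nn C ν + nn B ν) + nn D μ * (nn C ν + nn B ν) + nn C μ * nn B ν := by
    unfold w1
    simp only [ll_append, nn_append]
    ring
  have f3 : row (w0 p q A B C D) μ κ = nn A μ + nn B μ := by
    unfold row w0
    rw [if_neg c1]
    simp only [ll_cons, ll_append, nn_cons, nn_append, hp, hpm, hq, hqm, d1, d2, hlκ, if_true,
      if_false, nA, nB, nC, nD, rA, rB, rC, rD]
    ring
  have f4 : row (w0 p q A B C D) l ν = nn B ν + nn C ν + nn D ν + nn D ν := by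
    unfold row w0
    rw [if_neg d4]
    simp only [ll_cons, ll_append, nn_cons, nn_append, hp, hpm, hq, hqm, d3, d4, hκl, if_true,
      if_false, nA', nB', nC', nD', lA', lB', lC', lD']
    ring
  have f5 : row (w0 p q A B C D) μ l = nn A μ + nn A μ + nn B μ + nn C μ := by
    unfold row w0
    rw [if_neg c2]
    simp only [ll_cons, ll_append, nn_cons, nn_append, hp, hpm, hq, hqm, d1, d2, hκl, if_true,
      if_false, nA', nB', nC', nD', rA', rB', rC', rD']
    ring
  have f6 : row (w0 p q A B C D) κ ν = nn A ν + nn B ν + nn C ν + nn D ν + nn C ν + nn D ν := by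
    unfold row w0
    rw [if_neg d3]
    simp only [ll_cons, ll_append, nn_cons, nn_append, hp, hpm, hq, hqm, d3, d4, hlκ, if_true,
      if_false, nA, nB, nC, nD, lA, lB, lC, lD]
    ring
  rw [f3, f4, f5, f6]
  unfold row
  rw [if_neg c5, if_neg c5, f1, f2, dD μ d1 d2, dD ν d3 d4]
  exact piv_id _ _ _ _ _ _ _

end

end Pool.Agent.H75Rib
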