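import Pool.Agent.R800.AN.Chain
import Pool.Agent.R800.IR.Irr

/-!
# Cobordisms of arbitrary genus recording the double curves through the triple points
-/

namespace Pool.Agent.H75Rib

set_option linter.unusedSimpArgs false

open Pool.Agent.Y468.SR Pool.Agent.R800.AN
open Pool.Agent.Y874.TP hiding S_REID S_REN S_THREE S_OUT S_CUT S_JUNC CStep CReid CM InvM InvC Inv3
open Pool.Agent.Y874.TP2
open Pool.Agent.Y874.TP2.T3
open Pool.Agent.Y874.TP2.T4 (del de dw cstep_del wf_del del_cons dw_eq_nil dw_append enc_del de_append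
  de_two_keep de_two_swap enc_inj triAt_crossing mem_three del_eq)
open Pool.Agent.R800.TP (ends crs)

/-- `HMovie Z E D T`: there is a movie of classical links from `D` to `E`, births of components and
handles being allowed. Triple points of the projection (moves of type III) are of two kinds: either at
least two of the three double curves through the triple point have colours in `Z`, or the three double
curves have colours outside `Z`. `T` is the list of the triples of colours of the double curves at the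
triple points of the second kind: the colour of the crossing of the top and the middle strand, of the
top and the bottom strand, and of the middle and the bottom strand. There are no other conditions on
triple points. The colours (names of the double curves) are kept by all steps; branch points (moves of
type I) are allowed on double curves of even colours only. At a handle, a component is cut into two
components of the boundary of the same piece of surface, one of which passes only through crossings
with colours in `Z`; the number of handles is arbitrary. -/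
inductive HMovie (Z : ℕ → Prop) (E : Code) : Code → List (ℕ × ℕ × ℕ) → Prop
  | refl (h : Classical E) : HMovie Z E E []
  | step {D D' : Code} {T : List (ℕ × ℕ × ℕ)} (h : Classical D) (hs : CStep D D')
      (hm : HMovie Z E D' T) : HMovie Z E D T
  | three {D D' : Code} {T : List (ℕ × ℕ × ℕ)} (h : Classical D) (A B C F : List (Pass ⊕ ℕ))
      (X Y W t m b : Pass × Pass) (x y z : ℕ) (hT : TriAt x y z t m b)
      (hP : List.Perm [X, Y, W] [t, m, b])
      (hD : enc D = A ++ two X.1 X.2 ++ B ++ two Y.1 Y.2 ++ C ++ two W.1 W.2 ++ F)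
      (hD' : enc D' = A ++ two X.2 X.1 ++ B ++ two Y.2 Y.1 ++ C ++ two W.2 W.1 ++ F)
      (hZ : ¬Z (colour x) ∧ ¬Z (colour y) ∧ ¬Z (colour z))
      (hm : HMovie Z E D' T) : HMovie Z E D ((colour x, colour y, colour z) :: T)
  | inner {D D' : Code} {T : List (ℕ × ℕ × ℕ)} (h : Classical D) (A B C F : List (Pass ⊕ ℕ))
      (X Y W t m b : Pass × Pass) (x y z : ℕ) (hT : TriAt x y z t m b)
      (hP : List.Perm [X, Y, W] [t, m, b])
      (hD : enc D = A ++ two X.1 X.2 ++ B ++ two Y.1 Y.2 ++ C ++ two W.1 W.2 ++ F)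
      (hD' : enc D' = A ++ two X.2 X.1 ++ B ++ two Y.2 Y.1 ++ C ++ two W.2 W.1 ++ F)
      (hZ : Z (colour x) ∧ Z (colour y) ∨ Z (colour x) ∧ Z (colour z) ∨ Z (colour y) ∧ Z (colour z))
      (hm : HMovie Z E D' T) : HMovie Z E D T
  | handle {R : Code} {T : List (ℕ × ℕ × ℕ)} (x y : List Pass) (b : ℕ)
      (h : Classical ((x ++ y, b) :: R)) (hy : ∀ p ∈ y, Z (colour p.crossing))
      (hm : HMovie Z E ((x, b) :: (y, b) :: R) T) : HMovie Z E ((x ++ y, b) :: R) T

/-- The classical knots with Gauss codes `k` and `k'` are joined by a cobordism, of arbitrary genus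
and with arbitrarily many births, whose double curves meeting the knots cross evenly: the crossings of
`k` and `k'` are renamed (by `f` and `g`) in order to get names telling the double curves (colours),
`Z` is a set of double curves not meeting the knots, such that at each triple point at least two or
none of the three double curves belong to `Z`; whenever a component is cut by a handle, one of the two
new components passes only through crossings with colours in `Z`; every curve of the preimage has at
most two ends on the two knots, and any two different curves of the preimage with ends on the knots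
cross one another an even number of times at the triple points of the second kind. -/
def EvenCob (k k' : List Pass) : Prop :=
  Classical [(k, 0)] ∧ Classical [(k', 0)] ∧ ∃ (f g : ℕ → ℕ) (Z : ℕ → Prop)
    (T : List (ℕ × ℕ × ℕ)), Function.Injective f ∧ Function.Injective g ∧
    (∀ p ∈ k.map (ren f) ++ k'.map (ren g), ¬Z (colour p.crossing)) ∧
    HMovie Z (renamed g [(k', 0)]) (renamed f [(k, 0)]) T ∧
    (∀ κ, ((k.map (ren f) ++ k'.map (ren g)).map ends).count κ ≤ 2) ∧
    ∀ p ∈ k.map (ren f) ++ k'.map (ren g), ∀ q ∈ k.map (ren f) ++ k'.map (ren g),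
      ends p ≠ ends q → Even ((T.flatMap crs).count s(ends p, ends q))

variable {Z : ℕ → Prop}

theorem hmovie_classical {E D : Code} {T : List (ℕ × ℕ × ℕ)} (h : HMovie Z E D T) :
    Classical D := by
  cases h with
  | refl h => exact h
  | step h _ _ => exact h
  | three h => exact h
  | inner h => exact h
  | handle _ _ _ h => exact h

/-- concordances are cobordisms -/
theorem hmovie_of_cmovie {E D : Code} {T : List (ℕ × ℕ × ℕ)} (h : CMovie Z E D T) :
    HMovie Z E D T := by
  induction h with
  | refl h => exact .refl h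
  | step h hs _ ih => exact .step h hs ih
  | three h A B C F X Y W t m b x y z hT hP hD hD' hZ _ ih =>
    exact .three h A B C F X Y W t m b x y z hT hP hD hD' hZ ih
  | inner h A B C F X Y W t m b x y z hT hP hD hD' hZ _ ih =>
    exact .inner h A B C F X Y W t m b x y z hT hP hD hD' hZ ih

theorem evenCob_of_evenConc {k k' : List Pass} (h : EvenConc k k') : EvenCob k k' := by
  obtain ⟨hk, hk', f, g, Z, T, hf, hg, hZ, hM, hc, he⟩ := h
  exact ⟨hk, hk', f, g, Z, T, hf, hg, hZ, hmovie_of_cmovie hM, hc, he⟩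

theorem hmovie_inv (hreid : S_REID) (hren : S_REN) (hthree : S_THREE) {E D : Code}
    {T : List (ℕ × ℕ × ℕ)} (h : HMovie Z E D T) {e : List Pass} (he : WF e)
    (hodd : ∀ p ∈ e, IsOd p.crossing)
    (hE : ∃ κ, (∃ C ∈ del Z E, C.2 = κ) ∧ InvB (renamed ev (del Z E) ++ [(e, κ)]) []) :
    ∃ κ Ts, (∃ C ∈ del Z D, C.2 = κ) ∧ InvB (renamed ev (del Z D) ++ [(e, κ)]) Ts ∧
      Ts.map sig = T.map fun t => (t, (true, true, true)) := by
  induction h with
  | refl h =>
    obtain ⟨κ, h1, h2⟩ := hE
    exact ⟨κ, [], h1, h2, rfl⟩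
  | @step D D' T hD hs hm ih =>
    obtain ⟨κ', Ts, h0, h1, h2⟩ := ih
    rcases cstep_del (Z := Z) hs with h | h
    · obtain ⟨κ, hκ, hS⟩ := cstep_dbl h hodd h0
      obtain ⟨Ts', k1, k2⟩ := cstep_liftB hreid hren (wf_dbl' (wf_del hD.1) he hodd)
        (wf_dbl' (wf_del (hmovie_classical hm).1) he hodd) hS h1
      exact ⟨κ, Ts', hκ, k1, k2.trans h2⟩
    · exact ⟨κ', Ts, by rw [h]; exact h0, by rw [h]; exact h1, h2⟩
  | @three D D' T hD A B C F X Y W t m b x y z hT hP hE hE' hZ hm ih =>
    obtain ⟨κ, Ts, h0, h1, h2⟩ := ih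
    obtain ⟨c1, c2, c3⟩ := triAt_crossing hT
    have key : ∀ {u v : ℕ} {q : Pass × Pass}, ¬Z (colour u) → ¬Z (colour v) →
        (q.1.crossing = u ∧ q.2.crossing = v ∨ q.1.crossing = v ∧ q.2.crossing = u) →
        ¬Z (colour q.1.crossing) ∧ ¬Z (colour q.2.crossing) := by
      intro u v q hu hv hq
      rcases hq with ⟨e1, e2⟩ | ⟨e1, e2⟩ <;> rw [e1, e2] <;> exact ⟨by assumption, by assumption⟩
    obtain ⟨⟨x1, x2⟩, ⟨y1, y2⟩, w1, w2⟩ := mem_three hP (P := fun q : Pass × Pass =>
      ¬Z (colour q.1.crossing) ∧ ¬Z (colour q.2.crossing)) (key hZ.1 hZ.2.1 c1)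
      (key hZ.1 hZ.2.2 c2) (key hZ.2.1 hZ.2.2 c3)
    have f1 : enc (del Z D) = de Z A ++ two X.1 X.2 ++ de Z B ++ two Y.1 Y.2 ++ de Z C ++
        two W.1 W.2 ++ de Z F := by
      rw [enc_del, hE]; simp only [de_append, de_two_keep x1 x2, de_two_keep y1 y2, de_two_keep w1 w2]
    have f2 : enc (del Z D') = de Z A ++ two X.2 X.1 ++ de Z B ++ two Y.2 Y.1 ++ de Z C ++
        two W.2 W.1 ++ de Z F := by
      rw [enc_del, hE']; simp only [de_append, de_two_keep x2 x1, de_two_keep y2 y1,
        de_two_keep w2 w1]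
    have hl : (del Z D).map Prod.snd = (del Z D').map Prod.snd := by
      rw [← rl_enc, ← rl_enc, f1, f2]; simp
    have et : ∀ p q, eren ev (two p q) = two (ren ev p) (ren ev q) := fun _ _ => rfl
    have ea : ∀ X Y, eren ev (X ++ Y) = eren ev X ++ eren ev Y := fun _ _ => List.map_append
    have hP' : List.Perm [(ren ev X.1, ren ev X.2), (ren ev Y.1, ren ev Y.2),
        (ren ev W.1, ren ev W.2)] [(ren ev t.1, ren ev t.2), (ren ev m.1, ren ev m.2),
        (ren ev b.1, ren ev b.2)] := hP.map (fun q : Pass × Pass => (ren ev q.1, ren ev q.2))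
    obtain ⟨T', k1, k2⟩ := three_lift (D := renamed ev (del Z D) ++ [(e, κ)])
      (D' := renamed ev (del Z D') ++ [(e, κ)]) (A := eren ev (de Z A)) (B := eren ev (de Z B))
      (C := eren ev (de Z C)) (E := eren ev (de Z F) ++ enc [(e, κ)]) hthree (triAt_ren ev_inj hT) hP'
      (by rw [enc_append, enc_renamed, f1]; simp only [ea, et, List.append_assoc])
      (by rw [enc_append, enc_renamed, f2]; simp only [ea, et, List.append_assoc]) h1
    refine ⟨κ, T' :: Ts, ?_, k1, ?_⟩
    · obtain ⟨C, hC, hh⟩ := h0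
      have : C.2 ∈ (del Z D).map Prod.snd := by rw [hl]; exact List.mem_map_of_mem hC
      obtain ⟨C', hC', h'⟩ := List.mem_map.1 this
      exact ⟨C', hC', by rw [h', hh]⟩
    · rw [List.map_cons, List.map_cons, k2, h2, colour_ev, colour_ev, colour_ev]
  | @inner D D' T hD A B C F X Y W t m b x y z hT hP hE hE' hZ hm ih =>
    obtain ⟨c1, c2, c3⟩ := triAt_crossing hT
    have key : ∀ {u v : ℕ} {q : Pass × Pass}, (Z (colour u) ∨ Z (colour v)) →
        (q.1.crossing = u ∧ q.2.crossing = v ∨ q.1.crossing = v ∧ q.2.crossing = u) →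
        Z (colour q.1.crossing) ∨ Z (colour q.2.crossing) := by
      intro u v q hu hq
      rcases hq with ⟨e1, e2⟩ | ⟨e1, e2⟩ <;> rw [e1, e2]
      · exact hu
      · exact hu.symm
    obtain ⟨x1, y1, w1⟩ := mem_three hP (P := fun q : Pass × Pass =>
      Z (colour q.1.crossing) ∨ Z (colour q.2.crossing)) (key (by tauto) c1)
      (key (by tauto) c2) (key (by tauto) c3)
    have e : del Z D = del Z D' := by
      refine enc_inj ?_
      rw [enc_del, enc_del, hE, hE']
      simp only [de_append, de_two_swap x1, de_two_swap y1, de_two_swap w1]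
    rw [e]
    exact ih
  | @handle R T x y b hD hy hm ih =>
    obtain ⟨κ, Ts, h0, h1, h2⟩ := ih
    have ed : del Z ((x, b) :: (y, b) :: R) = (dw Z x, b) :: ([], b) :: del Z R := by
      rw [del_cons, del_cons, dw_eq_nil hy]
    have ed' : del Z ((x ++ y, b) :: R) = (dw Z x, b) :: del Z R := by
      rw [del_cons, dw_append, dw_eq_nil hy, List.append_nil]
    rw [ed] at h0 h1
    rw [ed']
    have hk : ∃ C ∈ ((dw Z x, b) :: del Z R), C.2 = κ := by
      obtain ⟨C, hC, hh⟩ := h0
      rcases List.mem_cons.1 hC with rfl | hC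
      · exact ⟨_, List.mem_cons_self, hh⟩
      · rcases List.mem_cons.1 hC with rfl | hC
        · exact ⟨_, List.mem_cons_self, hh⟩
        · exact ⟨C, List.mem_cons_of_mem _ hC, hh⟩
    have w1 : WF (passes (renamed ev ((dw Z x, b) :: ([], b) :: del Z R) ++ [(e, κ)])) := by
      rw [← ed]
      exact wf_dbl' (wf_del (hmovie_classical hm).1) he hodd
    have w2 : WF (passes (([], b) :: (renamed ev ((dw Z x, b) :: del Z R) ++ [(e, κ)]))) := by
      simpa [passes, renamed] using w1
    have w3 : WF (passes (renamed ev ((dw Z x, b) :: del Z R) ++ [(e, κ)])) := by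
      simpa [passes, renamed] using w1
    obtain ⟨Ts₁, k1, k2⟩ := cstep_liftB hreid hren w2 w1
      (.perm _ _ (by simpa [renamed] using List.Perm.swap _ _ _)) h1
    obtain ⟨Ts₂, k3, k4⟩ := cstep_liftB hreid hren w3 w2
      (.birth b _ ⟨_, List.mem_append_left _ (List.mem_map_of_mem List.mem_cons_self), rfl⟩) k1
    exact ⟨κ, Ts₂, hk, k3, (k4.trans k2).trans h2⟩

theorem common_of_hmovie {Z : ℕ → Prop} {k₁ k₂ : List Pass} {T : List (ℕ × ℕ × ℕ)}
    (c2 : Classical [(k₂, 0)]) (hM : HMovie Z [(k₂, 0)] [(k₁, 0)] T)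
    (hZ : ∀ p ∈ k₁ ++ k₂, ¬Z (colour p.crossing))
    (hc : ∀ κ, ((k₁ ++ k₂).map ends).count κ ≤ 2)
    (he : ∀ p ∈ k₁ ++ k₂, ∀ q ∈ k₁ ++ k₂, ends p ≠ ends q →
      Even ((T.flatMap crs).count s(ends p, ends q))) :
    ∃ j, Movie false false [(k₁, 0)] [(j, 0)] ∧ Movie false false [(k₂, 0)] [(j, 0)] := by
  have c1 := hmovie_classical hM
  have w1 : WF k₁ := by simpa [wf_iff] using wf_iff.1 c1.1
  have w2 : WF k₂ := by simpa [wf_iff] using wf_iff.1 c2.1
  have we : WF (bar (k₂.map (ren od))) := (WF.ren w2 fun p _ q _ h => od_inj h).bar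
  have hodd : ∀ p ∈ bar (k₂.map (ren od)), IsOd p.crossing := by
    intro p hp
    obtain ⟨q, hq, h⟩ := List.mem_map.1 (mem_bar.1 hp)
    have : p.crossing = od q.crossing := (congrArg Pass.crossing h).symm
    rw [this]
    exact isOd_od _
  have d1 : del Z [(k₁, 0)] = [(k₁, 0)] := del_eq fun p hp => hZ p (by
    simp only [passes_cons, passes_nil, List.append_nil] at hp
    exact List.mem_append_left _ hp)
  have d2 : del Z [(k₂, 0)] = [(k₂, 0)] := del_eq fun p hp => hZ p (by
    simp only [passes_cons, passes_nil, List.append_nil] at hp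
    exact List.mem_append_right _ hp)
  obtain ⟨κ, Ts, h0, hI, hs⟩ := hmovie_inv RD.reid RN.ren TH.three hM we hodd
    ⟨0, by rw [d2]; exact ⟨(k₂, 0), by simp, rfl⟩, by rw [d2]; exact invB_base w2 0⟩
  rw [d1] at h0 hI
  obtain ⟨C, hC, h0⟩ := h0
  rw [List.mem_singleton] at hC
  subst hC
  simp only at h0
  subst h0
  have hI' : InvB (ann (k₁.map (ren ev)) (bar (k₂.map (ren od)))) Ts := hI
  obtain ⟨m, hm⟩ := hI'.inv
  have hW : WF (k₁.map (ren ev) ++ bar (k₂.map (ren od))) := by
    have := wf_dbl' (D := [(k₁, 0)]) (κ := 0) (wf_iff.1 c1.1) we hodd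
    rw [passes_snoc] at this
    simpa [passes_renamed] using this
  obtain ⟨hm₁, hN⟩ := nullR_mt hI' hm hW (fun κ => by rw [(map_kap k₁ k₂).count_eq]; exact hc κ)
    (fun p hp q hq hpq => by
      obtain ⟨p', hp', e1⟩ := mem_kap hp
      obtain ⟨q', hq', e2⟩ := mem_kap hq
      rw [e1, e2, Pool.Agent.R800.TP.tprs_all hs]
      exact he p' hp' q' hq' (by rw [← e1, ← e2]; exact hpq))
  exact common_of_inv c1 c2 (inv_of_nullR (by simp) ⟨_, List.mem_singleton.2 rfl, rfl⟩ hm₁ hN)

theorem common_of_evenCob {k k' : List Pass} (h : EvenCob k k') :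
    ∃ j, Movie false false [(k, 0)] [(j, 0)] ∧ Movie false false [(k', 0)] [(j, 0)] := by
  obtain ⟨hk, hk', f, g, Z, T, hf, hg, hZ, hM, hc, he⟩ := h
  have c1 := classical_ren hf hk
  have c2 := classical_ren hg hk'
  obtain ⟨j, j1, j2⟩ := common_of_hmovie c2 hM hZ hc he
  have s1 : Step false false [(k, 0)] [(k.map (ren f), 0)] :=
    Step.rename f [(k, 0)] fun p _ q _ h => hf h
  have s2 : Step false false [(k', 0)] [(k'.map (ren g), 0)] :=
    Step.rename g [(k', 0)] fun p _ q _ h => hg h
  exact ⟨j, Movie.head hk c1 s1 j1, Movie.head hk' c2 s2 j2⟩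

end Pool.Agent.H75Rib
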