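import Pool.Agent.H75Rib.Main

/-!
# Links bounding surfaces of arbitrary genus
-/

namespace Pool.Agent.H75Rib

set_option linter.unusedSimpArgs false

open Pool.Agent.Y468.SR Hs Pool.Agent.R800.AN
open Pool.Agent.Y874.TP (colour)
open Pool.Agent.Y874.TP2 (sg)
open Pool.Agent.R800.TP (ends crs curve)
open Pool.Agent.Results.MP_177a0e_gt.NoBigonsInside (GMovie)
open Module

theorem St.nil' {c : Mx} (h : St [] c) : c = 0 := by
  obtain ⟨r, h, e⟩ := h
  have hr : r = 0 := by
    ext1 a
    have h3 := h a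
    rw [bv_nil] at h3
    generalize e' : Ze (r a) = t at h3
    cases h3
    exact congrArg Hs.a e'
  rw [← e, hr, map_zero]

theorem St.cons' {x : Hs} {b : ℕ} {L : List (Hs × ℕ)} {c : Mx} (hb : ∀ y ∈ L, y.2 ≠ b)
    (h : St ((x, b) :: L) c) : x = Ze x.a ∧ St L (c + x.a) := by
  obtain ⟨r, h, e⟩ := h
  have hL : bv L b = [] := by
    unfold bv
    rw [List.map_eq_nil_iff, List.filter_eq_nil_iff]
    intro y hy
    simpa using hb y hy
  have h0 := h b
  rw [bv_cons, if_pos rfl, hL] at h0
  obtain ⟨s, h1, h2⟩ := pc_head h0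
  have hx : x = Ze (r b) := by
    cases h1
    rw [mul_one] at h2
    exact h2
  have hxa : x.a = r b := by rw [hx]; rfl
  refine ⟨by rw [hxa]; exact hx, r + Finsupp.single b (r b), fun a => ?_, ?_⟩
  · rw [Finsupp.add_apply, Finsupp.single_apply]
    by_cases hab : b = a
    · subst hab
      rw [if_pos rfl, mx_add_self, hL, Ze_zero]
      exact PC.nil
    · rw [if_neg hab, add_zero]
      have := h a
      rwa [bv_cons, if_neg hab] at this
  · rw [map_add, e, tot_single, hxa]

theorem St.multi {L : List (Hs × ℕ)} (hn : (L.map Prod.snd).Nodup) {c : Mx} (h : St L c) :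
    (∀ y ∈ L, y.1.v = 0) ∧ c = (L.map fun y => y.1.a).sum := by
  induction L generalizing c with
  | nil => exact ⟨by simp, by rw [h.nil']; rfl⟩
  | cons y L ih =>
    obtain ⟨x, b⟩ := y
    rw [List.map_cons, List.nodup_cons] at hn
    obtain ⟨h1, h2⟩ := h.cons' fun y hy hyb => hn.1 (by
      have h3 := List.mem_map_of_mem (f := Prod.snd) hy
      rw [hyb] at h3
      exact h3)
    obtain ⟨h3, h4⟩ := ih hn.2 h2
    refine ⟨?_, ?_⟩
    · intro y hy
      rcases List.mem_cons.1 hy with rfl | hy
      · simp only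
        rw [h1]; rfl
      · exact h3 y hy
    · rw [List.map_cons, List.sum_cons, ← h4, add_comm c, ← add_assoc, mx_add_self, zero_add]

variable {Z : ℕ → Prop}

theorem wv_free {w : List Pass} (hw : ∀ p ∈ w, ¬Z (colour p.crossing)) :
    wv Z w = wv (fun _ => False) w := by
  induction w with
  | nil => rfl
  | cons p w ih =>
    rw [wv_cons, wv_cons, ih fun q hq => hw q (by simp [hq])]
    congr 1
    unfold fv cv
    rw [if_neg (hw p (by simp)), if_neg (fun h => h)]

theorem fmovie_classical {h : ℕ} {D : Code} {T : List (ℕ × ℕ × ℕ)} (hm : FMovie Z h D T) :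
    Classical D := by
  cases hm with
  | nil => exact Pool.Agent.Y468.SR.classical_empty (by simp)
  | step h _ _ => exact h
  | three h => exact h
  | inner h => exact h
  | handle _ _ _ h _ => exact h
  | handleZ _ _ _ h _ _ => exact h

theorem sum_a {D : Code} (hZ : ∀ p ∈ passes D, ¬Z (colour p.crossing)) :
    ((vl Z D).map fun y => y.1.a).sum = rowD D := by
  induction D with
  | nil => rfl
  | cons C D ih =>
    have h1 : (vl Z (C :: D)).map (fun y => y.1.a) =
        (wv Z C.1).a :: (vl Z D).map fun y => y.1.a := by simp [vl]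
    rw [h1, List.sum_cons, ih fun p hp => hZ p (by simp [hp]), rowD_cons]
    congr 1
    funext κ l
    exact wv_a (fun p hp => hZ p (by simp [hp])) κ l

/-- The crossing matrix of the curves of the preimage of the double curves: for two different curves
having ends on the link `D`, the number modulo 2 of the places where they cross one another at the
triple points `T`. -/
def cross (D : Code) (T : List (ℕ × ℕ × ℕ)) (κ l : ℕ × Bool) : ZMod 2 :=
  if κ ≠ l ∧ κ ∈ (passes D).map ends ∧ l ∈ (passes D).map ends then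
    ((T.flatMap crs).count s(κ, l) : ZMod 2) else 0

theorem ks_of_fmovie {D : Code} {h t : ℕ} {T : List (ℕ × ℕ × ℕ)}
    (hl : (D.map Prod.snd).Nodup) (h₂ : FMovie Z h D T)
    (hZ : ∀ p ∈ passes D, ¬Z (colour p.crossing))
    (h₃ : ∀ κ, ((passes D).map ends).count κ ≤ 2)
    (h₄ : finrank (ZMod 2) (Submodule.span (ZMod 2) (Set.range (cross D T))) ≤ 2 * t)
    (h₅ : ∀ κ, row (passes D) κ ∈ Submodule.span (ZMod 2) (row (passes D) '' Ev)) :
    KS (h + t) D := by
  obtain ⟨S, hS, hst⟩ := fmovie_st h₂
  have hn : ((vl Z D).map Prod.snd).Nodup := by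
    have : (vl Z D).map Prod.snd = D.map Prod.snd := by simp [vl]
    rw [this]; exact hl
  obtain ⟨k1, k2⟩ := hst.multi hn
  rw [sum_a hZ] at k2
  have bal : ∀ C ∈ D, Bal C.1 := by
    intro C hC
    have h1 := k1 (wv Z C.1, C.2) (List.mem_map_of_mem (f := fun C => (wv Z C.1, C.2)) hC)
    unfold Bal
    rw [← wv_free (Z := Z) fun p hp => hZ p (mem_passes.2 ⟨C, hC, hp⟩)]
    exact h1
  have hrow : row (passes D) = rowD D := row_passes fun C hC => nn_of_bal (bal C hC)
  have hcut : cutM ((passes D).map ends).toFinset (cnt (T.flatMap crs)) = cross D T := by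
    funext κ l
    unfold cutM cross cnt
    simp only [List.mem_toFinset]
    by_cases hc : κ ≠ l ∧ κ ∈ (passes D).map ends ∧ l ∈ (passes D).map ends
    · rw [if_pos hc, if_pos ⟨hc.2.1, hc.2.2, hc.1⟩, if_neg hc.1]
    · rw [if_neg hc, if_neg (fun h => hc ⟨h.2.2, h.1, h.2.1⟩)]
  refine ⟨fmovie_classical h₂, hl, h₃, bal, by rw [← hrow]; exact h₅, ?_⟩
  have h6 := rank_le (w := passes D) (S := S) (K := ((passes D).map ends).toFinset)
    (N := cnt (T.flatMap crs)) (t := t)
    (fun p hp => by
      rw [List.mem_toFinset]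
      exact List.mem_map_of_mem hp)
    (fun κ _ l _ _ => by
      rw [hrow, ← k2]
      rfl) (by rw [hcut]; exact h₄)
  rw [hS] at h6
  rw [← hrow]
  exact h6

end Pool.Agent.H75Rib
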