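import Pool.Agent.R800.TP.Even

/-!
# A group of class two

Pairs `(v, a)` of an integer function `v` on a set and a matrix `a` modulo 2, with the product
`(v + w, a + b + β v w)`, where `β v w` is the matrix `v κ * w l` modulo 2 outside the diagonal.
-/

namespace Pool.Agent.H75Rib

open Pool.Agent.Y468.SR

/-- the names of the curves of the preimage -/
abbrev Cu := ℕ × Bool

/-- matrices modulo 2 -/
abbrev Mx := Cu → Cu → ZMod 2

/-- the group -/
@[ext] structure Hs where
  v : Cu → ℤ
  a : Mx

namespace Hs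

/-- the cocycle -/
def be (v w : Cu → ℤ) : Mx := fun κ l => if κ = l then 0 else (v κ : ZMod 2) * (w l : ZMod 2)

theorem be_add_left (v v' w : Cu → ℤ) : be (v + v') w = be v w + be v' w := by
  funext κ l
  simp only [be, Pi.add_apply]
  split_ifs
  · simp
  · push_cast; ring

theorem be_add_right (v w w' : Cu → ℤ) : be v (w + w') = be v w + be v w' := by
  funext κ l
  simp only [be, Pi.add_apply]
  split_ifs
  · simp
  · push_cast; ring

theorem be_zero_left (w : Cu → ℤ) : be 0 w = 0 := by
  funext κ l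
  simp [be]

theorem be_zero_right (w : Cu → ℤ) : be w 0 = 0 := by
  funext κ l
  simp [be]

theorem be_neg_right (v w : Cu → ℤ) : be v (-w) = be v w := by
  funext κ l
  simp only [be, Pi.neg_apply]
  split_ifs
  · rfl
  · push_cast
    rw [mul_neg, ZMod.neg_eq_self_mod_two]

theorem be_neg_left (v w : Cu → ℤ) : be (-v) w = be v w := by
  funext κ l
  simp only [be, Pi.neg_apply]
  split_ifs
  · rfl
  · push_cast
    rw [neg_mul, ZMod.neg_eq_self_mod_two]

theorem mx_add_self (x : Mx) : x + x = 0 := by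
  funext κ l
  exact CharTwo.add_self_eq_zero _

theorem mx_neg (x : Mx) : -x = x := by
  funext κ l
  exact ZMod.neg_eq_self_mod_two _

instance : Mul Hs := ⟨fun x y => ⟨x.v + y.v, x.a + y.a + be x.v y.v⟩⟩
instance : One Hs := ⟨⟨0, 0⟩⟩
instance : Inv Hs := ⟨fun x => ⟨-x.v, x.a + be x.v x.v⟩⟩

theorem mul_def (x y : Hs) : x * y = ⟨x.v + y.v, x.a + y.a + be x.v y.v⟩ := rfl
theorem one_def : (1 : Hs) = ⟨0, 0⟩ := rfl
theorem inv_def' (x : Hs) : x⁻¹ = ⟨-x.v, x.a + be x.v x.v⟩ := rfl
@[simp] theorem mul_v (x y : Hs) : (x * y).v = x.v + y.v := rfl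
@[simp] theorem mul_a (x y : Hs) : (x * y).a = x.a + y.a + be x.v y.v := rfl
@[simp] theorem one_v : (1 : Hs).v = 0 := rfl
@[simp] theorem one_a : (1 : Hs).a = 0 := rfl
@[simp] theorem inv_v (x : Hs) : x⁻¹.v = -x.v := rfl
@[simp] theorem inv_a (x : Hs) : x⁻¹.a = x.a + be x.v x.v := rfl

instance : Group Hs := Group.ofLeftAxioms
  (fun x y z => by
    ext1
    · simp only [mul_v, add_assoc]
    · simp only [mul_a, mul_v, be_add_left, be_add_right]
      abel)
  (fun x => by
    ext1
    · simp
    · simp [be_zero_left])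
  (fun x => by
    ext1
    · simp
    · simp only [mul_a, inv_a, inv_v, one_a, be_neg_left]
      rw [show x.a + be x.v x.v + x.a + be x.v x.v = (x.a + x.a) + (be x.v x.v + be x.v x.v) by abel,
        mx_add_self, mx_add_self, add_zero])

/-- the commutator form -/
def om (v w : Cu → ℤ) : Mx := be v w + be w v

theorem om_add_left (v v' w : Cu → ℤ) : om (v + v') w = om v w + om v' w := by
  simp only [om, be_add_left, be_add_right]; abel

theorem om_zero_left (w : Cu → ℤ) : om 0 w = 0 := by simp [om, be_zero_left, be_zero_right]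
theorem om_zero_right (w : Cu → ℤ) : om w 0 = 0 := by simp [om, be_zero_left, be_zero_right]
theorem om_neg_left (v w : Cu → ℤ) : om (-v) w = om v w := by
  simp [om, be_neg_left, be_neg_right]

/-- central elements -/
def Ze (c : Mx) : Hs := ⟨0, c⟩

@[simp] theorem Ze_v (c : Mx) : (Ze c).v = 0 := rfl
@[simp] theorem Ze_a (c : Mx) : (Ze c).a = c := rfl
theorem Ze_zero : Ze 0 = 1 := rfl
theorem Ze_add (c d : Mx) : Ze (c + d) = Ze c * Ze d := by
  ext1
  · simp
  · simp [be_zero_left]

theorem Ze_comm (c : Mx) (x : Hs) : Ze c * x = x * Ze c := by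
  ext1
  · simp
  · simp [be_zero_left, be_zero_right, add_comm]

theorem conj_eq (g x : Hs) : g * x * g⁻¹ = x * Ze (om g.v x.v) := by
  rw [mul_inv_eq_iff_eq_mul]
  ext1
  · simp [add_comm]
  · simp only [mul_a, mul_v, Ze_a, Ze_v, be_zero_right, add_zero, om]
    rw [show x.a + (be g.v x.v + be x.v g.v) + g.a + be x.v g.v =
      g.a + x.a + be g.v x.v + (be x.v g.v + be x.v g.v) by abel, mx_add_self, add_zero]

theorem comm_eq (x y : Hs) : x * y = y * x * Ze (om x.v y.v) := by
  have h := conj_eq x y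
  calc x * y = x * y * x⁻¹ * x := by group
    _ = y * Ze (om x.v y.v) * x := by rw [h]
    _ = y * x * Ze (om x.v y.v) := by rw [mul_assoc, Ze_comm, ← mul_assoc]

end Hs

end Pool.Agent.H75Rib
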