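import Pool.Agent.H75Rib.Red

/-!
# The reduction: pivots
-/

namespace Pool.Agent.H75Rib

set_option linter.unusedSimpArgs false

open Pool.Agent.Y468.SR Hs Pool.Agent.R800.AN
open Pool.Agent.Y874.TP (colour)
open Pool.Agent.Y874.TP2 (sg)
open Pool.Agent.R800.TP (ends crs curve)
open Pool.Agent.Results.MP_177a0e_gt.NoBigonsInside (GMovie)
open Module

/-- the conditions on the link during the reduction -/
structure KS (h : ℕ) (D : Code) : Prop where
  cl : Classical D
  nd : (D.map Prod.snd).Nodup
  ct : ∀ κ, ((passes D).map ends).count κ ≤ 2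
  bal : ∀ C ∈ D, Bal C.1
  sp : ∀ κ, rowD D κ ∈ Submodule.span (ZMod 2) (rowD D '' Ev)
  rk : ∃ V : Submodule (ZMod 2) (Cu → ZMod 2), FiniteDimensional (ZMod 2) V ∧
    finrank (ZMod 2) V ≤ 2 * h ∧ ∀ κ, rowD D κ ∈ V

theorem KS.perm {h : ℕ} {D D' : Code} (k : KS h D) (hp : D.Perm D') : KS h D' := by
  have e := rowD_perm hp
  refine ⟨classical_perm hp k.cl, (hp.map _).nodup k.nd, fun κ => ?_,
    fun C hC => k.bal C (hp.symm.subset hC), ?_, ?_⟩
  · rw [← ((passes_perm hp).map ends).count_eq]
    exact k.ct κ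
  · rw [← e]; exact k.sp
  · rw [← e]; exact k.rk

theorem KS.rotate {h : ℕ} {x y : List Pass} {b : ℕ} {R : Code} (k : KS h ((x ++ y, b) :: R)) :
    KS h ((y ++ x, b) :: R) := by
  have e0 := row_rotate (nn_of_bal (k.bal _ List.mem_cons_self))
  have e : rowD ((y ++ x, b) :: R) = rowD ((x ++ y, b) :: R) := by
    rw [rowD_cons, rowD_cons, e0]
  refine ⟨classical_rotate k.cl, k.nd, fun κ => ?_, ?_, ?_, ?_⟩
  · have := k.ct κ
    simp only [passes_cons, List.map_append, List.count_append] at this ⊢
    omega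
  · intro C hC
    rcases List.mem_cons.1 hC with rfl | hC
    · have := k.bal _ List.mem_cons_self
      unfold Bal at this ⊢
      simp only [wv_append, mul_v] at this ⊢
      rw [add_comm]
      exact this
    · exact k.bal C (List.mem_cons_of_mem _ hC)
  · rw [e]; exact k.sp
  · rw [e]; exact k.rk

theorem one_of_ne {x : ZMod 2} (h : x ≠ 0) : x = 1 := by
  revert h; revert x; decide

theorem exists_comp {D : Code} {κ l : Cu} (h : rowD D κ l ≠ 0) : ∃ C ∈ D, row C.1 κ l ≠ 0 := by
  induction D with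
  | nil => exact absurd rfl h
  | cons C D ih =>
    by_cases h1 : row C.1 κ l = 0
    · rw [rowD_cons, Pi.add_apply, Pi.add_apply, h1, zero_add] at h
      obtain ⟨C', h2, h3⟩ := ih h
      exact ⟨C', List.mem_cons_of_mem _ h2, h3⟩
    · exact ⟨C, List.mem_cons_self, h1⟩

theorem exists_pivot {h : ℕ} {w : List Pass} {b : ℕ} {R : Code} (k : KS h ((w, b) :: R))
    {κ l : Cu} (hκ : κ ∈ Ev) (hl : l ∈ Ev)
    (hr : row w κ l ≠ 0) : ∃ x y p q A B C D, w = x ++ y ∧ y ++ x = w0 p q A B C D ∧
      ends p = κ ∧ ends p.mate = κ ∧ ends q = l ∧ ends q.mate = l := by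
  have hκl : κ ≠ l := by
    rintro rfl
    exact hr (row_self w κ)
  obtain ⟨p, hp, hpκ⟩ : ∃ p ∈ w, ends p = κ := by
    by_contra h'
    push Not at h'
    apply hr
    unfold row
    rw [if_neg hκl]
    exact ll_zero_left h' l
  obtain ⟨x, v, rfl⟩ := List.append_of_mem hp
  have hev : ∀ r : Pass, ends r ∈ Ev → ends r = ends r.mate := fun r hr => ends_mate hr
  have k' : KS h ((p :: v ++ x, b) :: R) := k.rotate
  have hb' := nn_of_bal (k'.bal _ List.mem_cons_self)
  have hr' : row (p :: v ++ x) κ l ≠ 0 := by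
    rw [row_rotate (nn_of_bal (k.bal _ List.mem_cons_self))]; exact hr
  have hpm : ends p.mate = κ := by
    rw [← hev p (by rw [hpκ]; exact hκ), hpκ]
  have hw0 : WF ((p :: v ++ x) ++ passes R) := by
    have := wf_iff.1 k'.cl.1
    rwa [passes_cons] at this
  have ct0 : ∀ κ, (((p :: v ++ x) ++ passes R).map ends).count κ ≤ 2 := by
    have := k'.ct
    rwa [passes_cons] at this
  have hmate : ∀ r ∈ p :: v ++ x, ends r ∈ Ev → r.mate ∈ p :: v ++ x := by
    intro r hr he
    rcases List.mem_append.1 (hw0.1 r (List.mem_append_left _ hr)) with h1 | h1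
    · exact h1
    · exact absurd (hev r he).symm (sep ct0 hb' hr _ h1)
  have hn : (p :: v ++ x).Nodup := (List.nodup_append.1 hw0.nodup).1
  have ct : ∀ κ, ((p :: v ++ x).map ends).count κ ≤ 2 := fun κ => by
    have := ct0 κ
    rw [List.map_append, List.count_append] at this
    omega
  have hm1 : p.mate ∈ v ++ x := by
    have := hmate p (by simp) (by rw [hpκ]; exact hκ)
    rw [List.cons_append, List.mem_cons] at this
    exact this.resolve_left (mate_ne' p)
  obtain ⟨X, Y, hXY⟩ := List.append_of_mem hm1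
  rw [List.cons_append, hXY] at hr' hn ct hmate
  have cκ : (X.map ends).count κ = 0 ∧ (Y.map ends).count κ = 0 := by
    have := ct κ
    rw [List.map_cons, hpκ, List.count_cons_self, List.map_append, List.count_append, List.map_cons,
      hpm, List.count_cons_self] at this
    omega
  have x0 := count_zero.1 cκ.1
  have y0 := count_zero.1 cκ.2
  have hX : nn X l ≠ 0 := by
    intro h'
    apply hr'
    unfold row
    rw [if_neg hκl, ll_cons, if_pos hpκ, nn_append, nn_cons, ll_append, ll_cons, if_pos hpm,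
      ll_zero_left x0, ll_zero_left y0, nn_zero_of x0, if_neg (by rw [hpm]; exact hκl), h']
    have h7 := ch2 (nn Y l)
    linear_combination h7
  obtain ⟨q, hq, hql⟩ := exists_of_nn hX
  have hqm : ends q.mate = l := by
    rw [← hev q (by rw [hql]; exact hl), hql]
  have hqX : q.mate ∉ X := by
    intro h'
    have c1 : (X.map ends).count l ≤ 2 := by
      have := ct l
      rw [List.map_cons, List.count_cons, List.map_append, List.count_append] at this
      omega
    have c2 : (X.map ends).count l = 1 := by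
      rw [nn_count] at hX
      have h3 : (X.map ends).count l = 0 ∨ (X.map ends).count l = 1 ∨
        (X.map ends).count l = 2 := by omega
      rcases h3 with h3 | h3 | h3
      · rw [h3] at hX
        exact absurd rfl hX
      · exact h3
      · rw [h3] at hX
        exact absurd (by decide) hX
    rw [← fil_len] at c2
    have m1 : q ∈ X.filter fun r => ends r = l := by simp [List.mem_filter, hq, hql]
    have m2 : q.mate ∈ X.filter fun r => ends r = l := by simp [List.mem_filter, h', hqm]
    obtain ⟨a, ha⟩ := List.length_eq_one_iff.1 c2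
    rw [ha, List.mem_singleton] at m1 m2
    exact mate_ne' q (m2.trans m1.symm)
  have hm2 : q.mate ∈ Y := by
    have h1 := hmate q (by simp [hq]) (by rw [hql]; exact hl)
    simp only [List.mem_cons, List.mem_append] at h1
    rcases h1 with h1 | h1 | h1 | h1
    · exact absurd (by rw [← hqm, h1, hpκ]) hκl
    · exact absurd h1 hqX
    · exact absurd (by rw [← hqm, h1, hpm]) hκl
    · exact h1
  obtain ⟨A, B, rfl⟩ := List.append_of_mem hq
  obtain ⟨C, D, rfl⟩ := List.append_of_mem hm2
  refine ⟨x, p :: v, p, q, A, B, C, D, rfl, ?_, hpκ, hpm, hql, hqm⟩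
  rw [List.cons_append, hXY]
  simp [w0]

theorem KS.pivot {h : ℕ} {p q : Pass} {A B C D : List Pass} {b : ℕ} {R : Code} {κ l : Cu}
    (k : KS h ((w0 p q A B C D, b) :: R)) (hp : ends p = κ) (hpm : ends p.mate = κ)
    (hq : ends q = l) (hqm : ends q.mate = l) (hκl : κ ≠ l) :
    ∃ h', h = h' + 1 ∧ KS h' ((w1 A B C D, b) :: R) := by
  have hlκ := Ne.symm hκl
  have hb := nn_of_bal (k.bal _ List.mem_cons_self)
  have hct : ∀ μ, ((w0 p q A B C D).map ends).count μ = ((w1 A B C D).map ends).count μ +
      (if κ = μ then 2 else 0) + (if l = μ then 2 else 0) := by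
    intro μ
    unfold w0 w1
    simp only [List.map_cons, List.map_append, List.count_cons, List.count_append, hp, hpm, hq, hqm,
      beq_iff_eq]
    split_ifs <;> omega
  have ct0 : ∀ κ, ((w0 p q A B C D ++ passes R).map ends).count κ ≤ 2 := by
    have := k.ct
    rwa [passes_cons] at this
  have hpw : p ∈ w0 p q A B C D := by simp [w0]
  have hqw : q ∈ w0 p q A B C D := by simp [w0]
  have s1 : ∀ r ∈ passes R, ends r ≠ κ := by rw [← hp]; exact sep ct0 hb hpw
  have s2 : ∀ r ∈ passes R, ends r ≠ l := by rw [← hq]; exact sep ct0 hb hqw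
  have h1 : ∀ r ∈ w1 A B C D, ends r ≠ κ := by
    rw [← count_zero]
    have h2 := hct κ
    have h3 := ct0 κ
    rw [List.map_append, List.count_append] at h3
    rw [if_pos rfl] at h2
    omega
  have h2 : ∀ r ∈ w1 A B C D, ends r ≠ l := by
    rw [← count_zero]
    have h2 := hct l
    have h3 := ct0 l
    rw [List.map_append, List.count_append] at h3
    rw [if_pos rfl] at h2
    omega
  have hrow := row_pivot hp hpm hq hqm hκl h1 h2 hb
  have e1 : row (w0 p q A B C D) κ l = 1 := by
    have hA : ∀ r ∈ A, r ∈ w1 A B C D := fun r hr => by simp [w1, hr]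
    have hB : ∀ r ∈ B, r ∈ w1 A B C D := fun r hr => by simp [w1, hr]
    have hC : ∀ r ∈ C, r ∈ w1 A B C D := fun r hr => by simp [w1, hr]
    have hD : ∀ r ∈ D, r ∈ w1 A B C D := fun r hr => by simp [w1, hr]
    have nA : nn A κ = 0 := nn_zero_of fun r hr => h1 r (hA r hr)
    have nB : nn B κ = 0 := nn_zero_of fun r hr => h1 r (hB r hr)
    have nC : nn C κ = 0 := nn_zero_of fun r hr => h1 r (hC r hr)
    have nD : nn D κ = 0 := nn_zero_of fun r hr => h1 r (hD r hr)
    have nA' : nn A l = 0 := nn_zero_of fun r hr => h2 r (hA r hr)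
    have nB' : nn B l = 0 := nn_zero_of fun r hr => h2 r (hB r hr)
    have nC' : nn C l = 0 := nn_zero_of fun r hr => h2 r (hC r hr)
    have nD' : nn D l = 0 := nn_zero_of fun r hr => h2 r (hD r hr)
    have lA : ∀ ν, ll A κ ν = 0 := ll_zero_left fun r hr => h1 r (hA r hr)
    have lB : ∀ ν, ll B κ ν = 0 := ll_zero_left fun r hr => h1 r (hB r hr)
    have lC : ∀ ν, ll C κ ν = 0 := ll_zero_left fun r hr => h1 r (hC r hr)
    have lD : ∀ ν, ll D κ ν = 0 := ll_zero_left fun r hr => h1 r (hD r hr)
    unfold row w0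
    rw [if_neg hκl]
    simp only [ll_cons, ll_append, nn_cons, nn_append, hp, hpm, hq, hqm, if_true, hκl, hlκ,
      if_false, nA', nB', nC', nD', lA, lB, lC, lD, nA, nB, nC, nD]
    decide
  have e2 : row (w0 p q A B C D) l κ = 1 := by rw [row_symm hb]; exact e1
  have f0 : ∀ μ, rowD ((w0 p q A B C D, b) :: R) μ = row (w0 p q A B C D) μ + rowD R μ :=
    fun μ => by rw [rowD_cons, Pi.add_apply]
  have f1 : ∀ μ, rowD ((w1 A B C D, b) :: R) μ =
      piv (w0 p q A B C D) κ l (rowD ((w0 p q A B C D, b) :: R) μ) := by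
    intro μ
    have f2 : rowD ((w1 A B C D, b) :: R) μ = row (w1 A B C D) μ + rowD R μ := by
      rw [rowD_cons, Pi.add_apply]
    rw [f0, f2, map_add, ← hrow μ]
    congr 1
    funext a
    rw [piv_apply, (rowD_zero s1).2, (rowD_zero s2).2, zero_mul, zero_mul, add_zero, add_zero]
  obtain ⟨V, hV, h3, h4⟩ := k.rk
  have hVκ : row (w0 p q A B C D) κ ∈ V := by
    have := h4 κ
    rwa [f0, (rowD_zero s1).1, add_zero] at this
  have hVl : row (w0 p q A B C D) l ∈ V := by
    have := h4 l
    rwa [f0, (rowD_zero s2).1, add_zero] at this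
  have h5 := piv_rank e1 e2 (V := V) hVκ hVl
  obtain ⟨h', rfl⟩ : ∃ h', h = h' + 1 := ⟨h - 1, by omega⟩
  refine ⟨h', rfl, gmovie_classical' (gm_pivot k.cl), k.nd, fun μ => ?_, ?_, fun μ => ?_, ?_⟩
  · have h6 := hct μ
    have h7 := ct0 μ
    rw [List.map_append, List.count_append] at h7
    have h8 : (List.map ends (passes ((w1 A B C D, b) :: R))).count μ =
        (List.map ends (w1 A B C D)).count μ + (List.map ends (passes R)).count μ := by
      rw [passes_cons, List.map_append, List.count_append]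
    omega
  · intro E hE
    rcases List.mem_cons.1 hE with rfl | hE
    · have h6 := k.bal _ List.mem_cons_self
      unfold Bal at h6 ⊢
      have h7 : ∀ r : Pass, ends r = ends r.mate →
          (fv (fun _ => False) r).v + (fv (fun _ => False) r.mate).v = 0 := by
        intro r hr
        unfold fv cv
        simp only [if_false]
        rw [← hr, sg_mate, ← Pi.single_add, add_neg_cancel, Pi.single_zero]
      have h8 := h7 p (by rw [hp, hpm])
      have h9 := h7 q (by rw [hq, hqm])
      have e : (wv (fun _ => False) (w0 p q A B C D)).v =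
          ((fv (fun _ => False) p).v + (fv (fun _ => False) p.mate).v) +
          ((fv (fun _ => False) q).v + (fv (fun _ => False) q.mate).v) +
          (wv (fun _ => False) (w1 A B C D)).v := by
        unfold w0 w1
        simp only [wv_cons, wv_append, mul_v]
        abel
      simp only at h6 ⊢
      rw [e, h8, h9, zero_add, zero_add] at h6
      exact h6
    · exact k.bal E (List.mem_cons_of_mem _ hE)
  · rw [f1 μ]
    have h6 : piv (w0 p q A B C D) κ l (rowD ((w0 p q A B C D, b) :: R) μ) ∈
        (Submodule.span (ZMod 2) (rowD ((w0 p q A B C D, b) :: R) '' Ev)).map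
          (piv (w0 p q A B C D) κ l) :=
      Submodule.mem_map_of_mem (k.sp μ)
    rw [Submodule.map_span] at h6
    refine Submodule.span_mono ?_ h6
    rintro _ ⟨_, ⟨ν, hν, rfl⟩, rfl⟩
    exact ⟨ν, hν, f1 ν⟩
  · refine ⟨V.map (piv (w0 p q A B C D) κ l), inferInstance, by omega, fun μ => ?_⟩
    rw [f1 μ]
    exact Submodule.mem_map_of_mem (h4 μ)

/-- The main theorem on the reduction. -/
theorem gm_of_ks (h : ℕ) : ∀ D, KS h D → ∃ h', h' ≤ h ∧ GMovie h' 0 D [] := by
  induction h using Nat.strong_induction_on with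
  | _ h ih =>
    intro D k
    by_cases hex : ∃ κ ∈ Ev, ∃ l ∈ Ev, rowD D κ l ≠ 0
    · obtain ⟨κ, hκ, l, hl, hr⟩ := hex
      obtain ⟨⟨w, b⟩, hC, hr'⟩ := exists_comp hr
      have hκl : κ ≠ l := by
        rintro rfl
        exact hr' (row_self w κ)
      obtain ⟨R₁, R₂, rfl⟩ := List.append_of_mem hC
      have hperm : (R₁ ++ (w, b) :: R₂).Perm ((w, b) :: (R₁ ++ R₂)) := List.perm_middle
      have k0 := k.perm hperm
      obtain ⟨x, y, p, q, A, B, C, D, rfl, h2, h3, h4, h5, h6⟩ := exists_pivot k0 hκ hl hr'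
      have k' := k0.rotate
      rw [h2] at k'
      obtain ⟨h', rfl, k''⟩ := k'.pivot h3 h4 h5 h6 hκl
      have m0 := gm_perm k.cl hperm
      have m1 := gm_rotate k0.cl
      rw [h2] at m1
      have m2 := gm_pivot k'.cl
      obtain ⟨h'', h7, m3⟩ := ih h' (by omega) _ k''
      exact ⟨1 + h'', by omega, GMovie.cast (GMovie.trans m0 (GMovie.trans m1
        (GMovie.trans m2 m3))) (by omega) rfl⟩
    · push Not at hex
      have hb : ∀ C ∈ D, ∀ κ, nn C.1 κ = 0 := fun C hC => nn_of_bal (k.bal C hC)
      have h1 := rows_zero (rowD_symm hb) k.sp hex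
      exact ⟨0, Nat.zero_le _, gm_ribbon k.cl k.nd
        (inv_of_rows (wf_iff.1 k.cl.1) k.ct k.bal h1)⟩

end Pool.Agent.H75Rib
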