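import Pool.Agent.H75Rib.Chord

/-!
# The rank of the interlacement matrix
-/

namespace Pool.Agent.H75Rib

open Pool.Agent.Y468.SR Hs
open Pool.Agent.Y874.TP (colour)
open Pool.Agent.Y874.TP2 (sg)
open Pool.Agent.R800.TP (ends crs curve)
open Module

theorem piv_row {w : List Pass} {κ l : Cu} (h1 : row w κ l = 1) :
    piv w κ l (row w κ) = 0 := by
  funext a
  rw [piv_apply, row_self, h1, zero_mul, one_mul, add_zero, ch2]
  rfl

theorem piv_row' {w : List Pass} {κ l : Cu} (h2 : row w l κ = 1) :
    piv w κ l (row w l) = 0 := by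
  funext a
  rw [piv_apply, row_self, h2, zero_mul, one_mul, add_zero, ch2]
  rfl

theorem piv_rank {w : List Pass} {κ l : Cu} (h1 : row w κ l = 1) (h2 : row w l κ = 1)
    {V : Submodule (ZMod 2) (Cu → ZMod 2)} [hV : FiniteDimensional (ZMod 2) V]
    (hκ : row w κ ∈ V) (hl : row w l ∈ V) :
    finrank (ZMod 2) (V.map (piv w κ l)) + 2 ≤ finrank (ZMod 2) V := by
  set f : V →ₗ[ZMod 2] (Cu → ZMod 2) := (piv w κ l).domRestrict V with hf
  have hr : LinearMap.range f = V.map (piv w κ l) := LinearMap.range_domRestrict V _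
  have h3 := LinearMap.finrank_range_add_finrank_ker f
  rw [hr] at h3
  let x : LinearMap.ker f := ⟨⟨row w κ, hκ⟩, by
    rw [LinearMap.mem_ker, hf, LinearMap.domRestrict_apply]
    exact piv_row h1⟩
  let y : LinearMap.ker f := ⟨⟨row w l, hl⟩, by
    rw [LinearMap.mem_ker, hf, LinearMap.domRestrict_apply]
    exact piv_row' h2⟩
  have hi : LinearIndependent (ZMod 2) ![x, y] := by
    rw [LinearIndependent.pair_iff]
    intro s t hst
    have h4 : s • row w κ + t • row w l = 0 := by
      have := congrArg (fun z : LinearMap.ker f => ((z : V) : Cu → ZMod 2)) hst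
      simpa [x, y] using this
    have h5 := congrFun h4 l
    have h6 := congrFun h4 κ
    simp only [Pi.add_apply, Pi.smul_apply, smul_eq_mul, h1, h2, row_self, mul_one, mul_zero,
      add_zero, zero_add, Pi.zero_apply] at h5 h6
    exact ⟨h5, h6⟩
  have h4 := hi.fintype_card_le_finrank
  rw [Fintype.card_fin] at h4
  omega

/-- the curves with branch points -/
def Ev : Set Cu := {κ | κ.1 % 2 = 0}

/-- If no two curves with branch points are interlaced, then no two curves are. -/
theorem rows_zero {M : Cu → Cu → ZMod 2} (hb : ∀ κ l, M κ l = M l κ)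
    (sp : ∀ κ, M κ ∈ Submodule.span (ZMod 2) (M '' Ev))
    (h : ∀ κ ∈ Ev, ∀ l ∈ Ev, M κ l = 0) (κ : Cu) : M κ = 0 := by
  have h1 : ∀ l ∈ Ev, ∀ κ, M κ l = 0 := by
    intro l hl κ
    have h2 : Submodule.span (ZMod 2) (M '' Ev) ≤
        LinearMap.ker (LinearMap.proj l : (Cu → ZMod 2) →ₗ[ZMod 2] ZMod 2) := by
      rw [Submodule.span_le]
      rintro _ ⟨κ', h', rfl⟩
      exact h κ' h' l hl
    exact h2 (sp κ)
  have h3 : M '' Ev ⊆ {0} := by
    rintro _ ⟨l, hl, rfl⟩
    rw [Set.mem_singleton_iff]
    funext κ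
    rw [hb]
    exact h1 l hl κ
  have h4 := Submodule.span_mono (R := ZMod 2) h3 (sp κ)
  rw [Submodule.span_singleton_eq_bot.2 rfl, Submodule.mem_bot] at h4
  exact h4

/-! ### the form of the interlacement matrix of a knot bounding a surface -/

/-- a vector modulo 2, cut off outside a finite set -/
def cut (K : Finset Cu) (v : Cu → ℤ) : Cu → ZMod 2 := fun κ => if κ ∈ K then (v κ : ZMod 2) else 0

theorem form_rank (S : List ((Cu → ℤ) × (Cu → ℤ))) (K : Finset Cu) :
    ∃ V : Submodule (ZMod 2) (Cu → ZMod 2), FiniteDimensional (ZMod 2) V ∧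
      finrank (ZMod 2) V ≤ 2 * S.length ∧ ∀ κ, (fun l => if κ ∈ K ∧ l ∈ K ∧ κ ≠ l then
        (S.map fun s => om s.1 s.2).sum κ l else 0) ∈ V := by
  classical
  set L : List (Cu → ZMod 2) := S.flatMap fun s => [cut K s.1, cut K s.2] with hL
  have hl : L.length = 2 * S.length := by
    rw [hL, List.length_flatMap]
    simp [mul_comm]
  refine ⟨Submodule.span (ZMod 2) (L.toFinset : Set (Cu → ZMod 2)), inferInstance, ?_, ?_⟩
  · refine (finrank_span_finset_le_card _).trans ?_
    rw [← hl]
    exact List.toFinset_card_le L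
  · intro κ
    by_cases hκ : κ ∈ K
    · have key : ∀ S' : List ((Cu → ℤ) × (Cu → ℤ)), (∀ s ∈ S', s ∈ S) →
          (fun l => if l ∈ K ∧ κ ≠ l then (S'.map fun s => om s.1 s.2).sum κ l else 0) ∈
            Submodule.span (ZMod 2) (L.toFinset : Set (Cu → ZMod 2)) := by
        intro S' hS'
        induction S' with
        | nil =>
          convert Submodule.zero_mem _ using 1
          funext l
          simp
        | cons s S' ih =>
          have h1 : cut K s.1 ∈ Submodule.span (ZMod 2) (L.toFinset : Set (Cu → ZMod 2)) := by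
            refine Submodule.subset_span ?_
            simp only [List.coe_toFinset, Set.mem_ofPred_eq, hL, List.mem_flatMap]
            exact ⟨s, hS' s (by simp), by simp⟩
          have h2 : cut K s.2 ∈ Submodule.span (ZMod 2) (L.toFinset : Set (Cu → ZMod 2)) := by
            refine Submodule.subset_span ?_
            simp only [List.coe_toFinset, Set.mem_ofPred_eq, hL, List.mem_flatMap]
            exact ⟨s, hS' s (by simp), by simp⟩
          have h3 := Submodule.add_mem _ (Submodule.add_mem _
            (Submodule.smul_mem _ (s.1 κ : ZMod 2) h2) (Submodule.smul_mem _ (s.2 κ : ZMod 2) h1))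
            (ih fun s' hs' => hS' s' (by simp [hs']))
          convert h3 using 1
          funext l
          simp only [List.map_cons, List.sum_cons, Pi.add_apply, Pi.smul_apply, smul_eq_mul, om, be,
            cut]
          by_cases hl : l ∈ K
          · by_cases hkl : κ = l
            · subst hkl
              simp only [hl, ne_eq, not_true_eq_false, and_false, if_false, if_true, add_zero]
              rw [mul_comm ((s.2 κ : ℤ) : ZMod 2), ch2]
            · simp only [hl, hkl, ne_eq, not_false_eq_true, and_self, if_true, if_false]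
          · simp [hl]
      convert key S (fun _ h => h) using 1
      funext l
      simp only [hκ, true_and]
    · convert Submodule.zero_mem _ using 1
      funext l
      simp [hκ]

/-- the part of a matrix with indices in a finite set -/
def cutM (K : Finset Cu) (N : Cu → Cu → ZMod 2) (κ l : Cu) : ZMod 2 :=
  if κ ∈ K ∧ l ∈ K ∧ κ ≠ l then N κ l else 0

theorem finite_range_cutM (K : Finset Cu) (N : Cu → Cu → ZMod 2) :
    (Set.range (cutM K N)).Finite := by
  refine Set.Finite.subset ((Set.finite_singleton (0 : Cu → ZMod 2)).union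
    (K.finite_toSet.image (cutM K N))) ?_
  rintro _ ⟨κ, rfl⟩
  by_cases hκ : κ ∈ K
  · exact Or.inr ⟨κ, hκ, rfl⟩
  · refine Or.inl ?_
    rw [Set.mem_singleton_iff]
    funext l
    simp [cutM, hκ]

theorem rank_le {w : List Pass} {S : List ((Cu → ℤ) × (Cu → ℤ))} {K : Finset Cu} {N : Mx} {t : ℕ}
    (hK : ∀ p ∈ w, ends p ∈ K)
    (h : ∀ κ ∈ K, ∀ l ∈ K, κ ≠ l → row w κ l = N κ l + (S.map fun s => om s.1 s.2).sum κ l)
    (ht : finrank (ZMod 2) (Submodule.span (ZMod 2) (Set.range (cutM K N))) ≤ 2 * t) :
    ∃ V : Submodule (ZMod 2) (Cu → ZMod 2), FiniteDimensional (ZMod 2) V ∧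
      finrank (ZMod 2) V ≤ 2 * (S.length + t) ∧ ∀ κ, row w κ ∈ V := by
  obtain ⟨V, hV, h1, h2⟩ := form_rank S K
  have hW : FiniteDimensional (ZMod 2) (Submodule.span (ZMod 2) (Set.range (cutM K N))) :=
    FiniteDimensional.span_of_finite _ (finite_range_cutM K N)
  refine ⟨Submodule.span (ZMod 2) (Set.range (cutM K N)) ⊔ V, inferInstance, ?_, fun κ => ?_⟩
  · have := Submodule.finrank_add_le_finrank_add_finrank
      (Submodule.span (ZMod 2) (Set.range (cutM K N))) V
    omega
  · have e : row w κ = cutM K N κ + (fun l => if κ ∈ K ∧ l ∈ K ∧ κ ≠ l then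
        (S.map fun s => om s.1 s.2).sum κ l else 0) := by
      funext l
      rw [Pi.add_apply]
      unfold cutM
      by_cases hc : κ ∈ K ∧ l ∈ K ∧ κ ≠ l
      · rw [if_pos hc, if_pos hc]
        exact h κ hc.1 l hc.2.1 hc.2.2
      · rw [if_neg hc, if_neg hc, add_zero]
        unfold row
        split_ifs with hkl
        · rfl
        · by_cases hκ : κ ∈ K
          · have hl : l ∉ K := fun hl => hc ⟨hκ, hl, hkl⟩
            exact ll_zero_right (fun p hp h' => hl (by rw [← h']; exact hK p hp)) κ
          · exact ll_zero_left (fun p hp h' => hκ (by rw [← h']; exact hK p hp)) l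
    rw [e]
    exact Submodule.add_mem_sup (Submodule.subset_span ⟨κ, rfl⟩) (h2 κ)

end Pool.Agent.H75Rib
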