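import Pool.Agent.H75Rib.Word

/-!
# Reduction of knots bounding surfaces: pivots at crossings on curves with branch points
-/

namespace Pool.Agent.H75Rib

set_option linter.unusedSimpArgs false

open Pool.Agent.Y468.SR Hs Pool.Agent.R800.AN
open Pool.Agent.Y874.TP (colour)
open Pool.Agent.Y874.TP2 (sg)
open Pool.Agent.R800.TP (ends crs curve)
open Pool.Agent.Results.MP_177a0e_gt.NoBigonsInside (GMovie)
open Module

theorem ends_fst (p : Pass) : (ends p).1 = colour p.crossing := rfl

theorem mate_ne' (p : Pass) : p.mate ≠ p := by
  intro h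
  simpa [Pass.mate] using congrArg Pass.isOver h

open Classical in
/-- the matching of the crossings on unbranched curves -/
noncomputable def mt (w : List Pass) (c : ℕ) : ℕ :=
  if colour c % 2 = 0 then c
  else if h : ∃ q ∈ w, q.isOver = true ∧ colour q.crossing = colour c ∧ q.crossing ≠ c then
    (Classical.choose h).crossing else c

theorem wf_eq_of {w : List Pass} (h : WF w) {p q : Pass} (hp : p ∈ w) (hq : q ∈ w)
    (hc : p.crossing = q.crossing) (ho : p.isOver = q.isOver) : p = q :=
  List.inj_on_of_nodup_map h.2 hp hq (by simp [hc, ho])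

/-! ### interlacement matrices of links -/

/-- The interlacement matrix of a link: for two curves having both ends on the same component the
entry is one if their ends separate one another on this component. -/
def rowD (D : Code) : Cu → Cu → ZMod 2 := (D.map fun C => row C.1).sum

@[simp] theorem rowD_nil : rowD [] = 0 := rfl

@[simp] theorem rowD_cons (C : List Pass × ℕ) (D : Code) : rowD (C :: D) = row C.1 + rowD D := by
  simp [rowD]

theorem rowD_perm {D D' : Code} (h : D.Perm D') : rowD D = rowD D' := (h.map _).sum_eq

theorem row_append {x y : List Pass} (hx : ∀ κ, nn x κ = 0) : row (x ++ y) = row x + row y := by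
  funext κ l
  simp only [Pi.add_apply, row]
  split_ifs
  · simp
  · rw [ll_append, hx κ, zero_mul, add_zero]

theorem row_passes {D : Code} (h : ∀ C ∈ D, ∀ κ, nn C.1 κ = 0) : row (passes D) = rowD D := by
  induction D with
  | nil =>
    funext κ l
    simp [row]
  | cons C D ih =>
    rw [passes_cons, row_append (h C (by simp)), rowD_cons, ih fun C' h' => h C' (by simp [h'])]

theorem rowD_symm {D : Code} (h : ∀ C ∈ D, ∀ κ, nn C.1 κ = 0) (κ l : Cu) :
    rowD D κ l = rowD D l κ := by
  induction D with
  | nil => rfl
  | cons C D ih =>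
    rw [rowD_cons]
    simp only [Pi.add_apply]
    rw [ih fun C' h' => h C' (by simp [h']), row_symm (h C (by simp))]

theorem row_zero {w : List Pass} {κ : Cu} (h : ∀ p ∈ w, ends p ≠ κ) :
    row w κ = 0 ∧ ∀ μ, row w μ κ = 0 := by
  refine ⟨?_, fun μ => ?_⟩
  · funext l
    unfold row
    split_ifs
    · rfl
    · exact ll_zero_left h l
  · unfold row
    split_ifs
    · rfl
    · exact ll_zero_right h μ

theorem rowD_zero {D : Code} {κ : Cu} (h : ∀ p ∈ passes D, ends p ≠ κ) :
    rowD D κ = 0 ∧ ∀ μ, rowD D μ κ = 0 := by
  induction D with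
  | nil => exact ⟨rfl, fun _ => rfl⟩
  | cons C D ih =>
    obtain ⟨h1, h2⟩ := row_zero (w := C.1) (κ := κ) fun p hp => h p (by simp [hp])
    obtain ⟨h3, h4⟩ := ih fun p hp => h p (by simp [hp])
    rw [rowD_cons]
    refine ⟨?_, fun μ => ?_⟩
    · rw [Pi.add_apply, h1, h3, add_zero]
    · rw [Pi.add_apply, Pi.add_apply, h2, h4, add_zero]

/-- both ends of a curve are on the same component -/
theorem sep {w r : List Pass} (ct : ∀ κ, ((w ++ r).map ends).count κ ≤ 2)
    (hw : ∀ κ, nn w κ = 0) {p : Pass} (hp : p ∈ w) : ∀ s ∈ r, ends s ≠ ends p := by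
  rw [← count_zero]
  have h1 := ct (ends p)
  rw [List.map_append, List.count_append] at h1
  rcases count_even (hw (ends p)) (by omega) with h2 | h2
  · exact absurd rfl (count_zero.1 h2 p hp)
  · omega

theorem bal_passes {D : Code} (h : ∀ C ∈ D, Bal C.1) : Bal (passes D) := by
  induction D with
  | nil => rfl
  | cons C D ih =>
    have h1 := h C (by simp)
    have h2 := ih fun C' h' => h C' (by simp [h'])
    unfold Bal at h1 h2 ⊢
    rw [passes_cons, wv_append, mul_v, h1, h2, add_zero]

section
variable {w : List Pass} (hw : WF w) (ct : ∀ κ, (w.map ends).count κ ≤ 2)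

include hw ct in
theorem mt_over {p q : Pass} (hp : p ∈ w) (hq : q ∈ w) (ho : p.isOver = true)
    (ho' : q.isOver = true) (hc : colour q.crossing = colour p.crossing)
    (hodd : colour p.crossing % 2 ≠ 0) (hne : q ≠ p) : mt w p.crossing = q.crossing := by
  have hn := hw.nodup
  have hE : ∃ q ∈ w, q.isOver = true ∧ colour q.crossing = colour p.crossing ∧
      q.crossing ≠ p.crossing := ⟨q, hq, ho', hc, fun h => hne (wf_eq_of hw hq hp h (by rw [ho, ho']))⟩
  unfold mt
  rw [if_neg hodd, dif_pos hE]
  obtain ⟨k1, k2, k3, k4⟩ := Classical.choose_spec hE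
  generalize Classical.choose hE = q' at k1 k2 k3 k4
  have e1 : ends q' = ends p := by unfold ends; rw [k3, k2, ho]
  have e2 : ends q = ends p := by unfold ends; rw [hc, ho', ho]
  rw [uniq2 hn (ct (ends p)) hp k1 hq rfl e1 e2 (fun h => k4 (by rw [h])) hne.symm]

include hw ct in
theorem mt_eq {p q : Pass} (hp : p ∈ w) (hq : q ∈ w) (ho : p.isOver = q.isOver)
    (hc : colour q.crossing = colour p.crossing)
    (hodd : colour p.crossing % 2 ≠ 0) (hne : q ≠ p) : mt w p.crossing = q.crossing := by
  cases h : p.isOver
  · have h1 := mt_over hw ct (hw.1 p hp) (hw.1 q hq) (by simp [h]) (by simp [← ho, h]) hc hodd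
      (fun h => hne (by simpa using congrArg Pass.mate h))
    exact h1
  · exact mt_over hw ct hp hq h (by rw [← ho, h]) hc hodd hne

include hw ct in
theorem other_odd (bal : Bal w) {p : Pass} (hp : p ∈ w) (hodd : colour p.crossing % 2 ≠ 0) :
    ∃ q ∈ w, q ≠ p ∧ q.isOver = p.isOver ∧ colour q.crossing = colour p.crossing ∧
      q.isPos = !p.isPos := by
  obtain ⟨q, k1, k2, k3, k4⟩ := other hw.nodup (ct (ends p)) bal hp rfl
  have h1 : colour q.crossing = colour p.crossing := by
    have h0 := congrArg Prod.fst k3
    exact h0
  have h2 : q.isOver = p.isOver := by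
    have := congrArg Prod.snd k3
    unfold ends curve at this
    simp only [h1] at this
    have h3 : (colour p.crossing % 2 == 0) = false := by simpa using hodd
    simpa [h3] using this
  refine ⟨q, k1, k2, h2, h1, ?_⟩
  unfold sg at k4
  rw [h2] at k4
  cases h4 : q.isPos <;> cases h5 : p.isPos <;> cases h6 : p.isOver <;> simp_all

end

/-- A diagram without interlaced curves: the double curves can be matched without triple points. -/
theorem inv_of_rows {D : Code} (hw : WF (passes D))
    (ct : ∀ κ, ((passes D).map ends).count κ ≤ 2) (bal : ∀ C ∈ D, Bal C.1)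
    (h : ∀ κ, rowD D κ = 0) : Inv D := by
  have hb := bal_passes bal
  refine inv_of_null (m := mt (passes D)) ?_ ?_
  · intro p hp
    by_cases he : colour p.crossing % 2 = 0
    · have : mt (passes D) p.crossing = p.crossing := by unfold mt; rw [if_pos he]
      exact ⟨p, hp, this.symm, this, fun h => absurd rfl h⟩
    · obtain ⟨q, k1, k2, k3, k4, k5⟩ := other_odd hw ct hb hp he
      exact ⟨q, k1, (mt_eq hw ct hp k1 k3.symm k4 he k2).symm,
        mt_eq hw ct k1 hp k3 k4.symm (by rw [k4]; exact he) k2.symm, fun _ => k5⟩
  · intro G _ o u hv C hC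
    obtain ⟨R₁, R₂, rfl⟩ := List.append_of_mem hC
    have hperm : (R₁ ++ C :: R₂).Perm (C :: (R₁ ++ R₂)) := List.perm_middle
    have hpp : (passes (R₁ ++ C :: R₂)).Perm (C.1 ++ passes (R₁ ++ R₂)) := by
      rw [← passes_cons]
      exact passes_perm hperm
    have ct' : ∀ κ, ((C.1 ++ passes (R₁ ++ R₂)).map ends).count κ ≤ 2 := fun κ => by
      rw [← (hpp.map ends).count_eq]
      exact ct κ
    have hnn := nn_of_bal (bal C hC)
    have hmem : ∀ r ∈ C.1, r ∈ passes (R₁ ++ C :: R₂) := fun r hr =>
      hpp.symm.subset (List.mem_append_left _ hr)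
    refine prod_one (val o u) _ C.1 le_rfl (fun κ => ?_) hnn (fun κ l hκl => ?_) ?_
    · have := ct' κ
      rw [List.map_append, List.count_append] at this
      omega
    · by_cases hκ : ∃ p ∈ C.1, ends p = κ
      · obtain ⟨p, hp, rfl⟩ := hκ
        have h1 := h (ends p)
        rw [rowD_perm hperm, rowD_cons, Pi.add_apply, (rowD_zero (sep ct' hnn hp)).1, add_zero] at h1
        have := congrFun h1 l
        unfold row at this
        rwa [if_neg hκl] at this
      · push Not at hκ
        exact ll_zero_left hκ l
    · have hn : C.1.Pairwise (fun p q => p ≠ q) :=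
        (List.nodup_append.1 (hpp.nodup hw.nodup)).1
      refine List.Pairwise.imp_of_mem ?_ hn
      intro p q hp hq hpq he
      replace hp := hmem p hp
      replace hq := hmem q hq
      have h1 : colour q.crossing = colour p.crossing := by
        have h0 := congrArg Prod.fst he
        exact h0.symm
      by_cases hev : colour p.crossing % 2 = 0
      · have hm : mt (passes (R₁ ++ C :: R₂)) p.crossing = p.crossing := by
          unfold mt; rw [if_pos hev]
        have h2 : q = p.mate := by
          refine uniq2 hw.nodup (ct (ends p)) hp hq (hw.1 p hp) rfl he.symm (ends_mate hev).symm hpq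
            (mate_ne' p).symm
        have h3 := (hv p hp).1 hm
        rw [h2]
        unfold val Pass.mate
        cases hpo : p.isOver
        · simp [h3]
        · simp [h3]
      · have h2 : q.isOver = p.isOver := by
          have := congrArg Prod.snd he
          unfold ends curve at this
          simp only [h1] at this
          have h3 : (colour p.crossing % 2 == 0) = false := by simpa using hev
          simpa [h3, eq_comm] using this
        have hm := mt_eq hw ct hp hq h2.symm h1 hev hpq.symm
        have hne : mt (passes (R₁ ++ C :: R₂)) p.crossing ≠ p.crossing := by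
          rw [hm]
          intro h3
          exact hpq (wf_eq_of hw hp hq h3.symm h2.symm)
        obtain ⟨h3, h4⟩ := (hv p hp).2 hne
        rw [hm] at h3 h4
        unfold val
        rw [h2]
        split_ifs
        · rw [h3]; simp
        · rw [h4]; simp

/-- A diagram without interlaced curves is a diagram of a ribbon link. -/
theorem gm_ribbon {D : Code} (cl : Classical D) (nd : (D.map Prod.snd).Nodup) (h : Inv D) :
    GMovie 0 0 D [] := by
  have h1 := ribbon_of_inv _ D le_rfl cl nd h
  exact GMovie.of_movie (movie_mono h1)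
    (.refl [] (Pool.Agent.Y468.SR.classical_empty (by simp)))

/-- superfluous handles -/
theorem gm_pad {w : List Pass} {g : ℕ} (h : GMovie g 0 [(w, 0)] []) (n : ℕ) :
    GMovie (g + n) 0 [(w, 0)] [] := by
  induction n with
  | zero => exact h
  | succ n ih =>
    have c := gmovie_classical h
    have c1 : Classical ([] ++ [(w, 0)] : Code) := c
    have m1 : GMovie 0 1 [(w, 0)] [([], 0), (w, 0)] := by
      refine GMovie.birth c 0 ⟨(w, 0), by simp, rfl⟩ (.refl _ ?_)
      refine ⟨?_, ?_⟩
      · have := c.1
        simpa [WellFormed, passes] using this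
      · intro back front h2 h3
        obtain ⟨u, h4, h5⟩ := c.2 back front (fun C hC => h2 C (by simp at hC ⊢; tauto))
          (fun p hm => h3 p (by simpa [passes] using hm))
        refine ⟨u, fun C hC => ?_, fun p hm => h5 p (by simpa [passes] using hm)⟩
        simp only [List.mem_cons, List.not_mem_nil, or_false] at hC
        rcases hC with rfl | rfl
        · exact ⟨(0, 0), rfl⟩
        · exact h4 _ (by simp)
    have c2 := gmovie_classical' m1
    have m2 : GMovie 0 0 [([], 0), (w, 0)] [([] ++ w, 0)] :=
      .step c2 (.merge [] w 0 []) (.refl _ (by simpa using c))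
    have m3 := (GMovie.trans m1 m2).trade
    exact GMovie.cast (GMovie.trans m3 (by simpa using ih)) (by omega) rfl

end Pool.Agent.H75Rib
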