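import Pool.Agent.H75Rib.Cob
import Pool.Agent.Results.MP_177a0e_gt.NoBigonsInside

/-!
# Movies counting handles and births: composition and reversal
-/

namespace Pool.Agent.H75Rib

set_option linter.unusedSimpArgs false

open Pool.Agent.Y468.SR Pool.Agent.R800.AN
open Pool.Agent.Results.MP_177a0e_gt.NoBigonsInside (GMovie)

theorem GMovie.cast {g n g' n' : ℕ} {A B : Code} (h : GMovie g n A B) (h1 : g = g') (h2 : n = n') :
    GMovie g' n' A B := by
  subst h1; subst h2; exact h

theorem GMovie.trans {g n g' n' : ℕ} {A B C : Code} (h : GMovie g n A B) (h' : GMovie g' n' B C) :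
    GMovie (g + g') (n + n') A C := by
  induction h with
  | refl D h => exact GMovie.cast h' (by omega) (by omega)
  | step h hs _ ih => exact (ih h').step h hs
  | birth h b hb _ ih => exact GMovie.cast (GMovie.birth h b hb (ih h')) rfl (by omega)
  | handle x y b h _ ih => exact GMovie.cast (GMovie.handle x y b h (ih h')) (by omega) rfl

theorem gmovie_classical {g n : ℕ} {A B : Code} (h : GMovie g n A B) : Classical A := by
  cases h with
  | refl _ h => exact h
  | step h _ _ => exact h
  | birth h _ _ _ => exact h
  | handle _ _ _ h _ => exact h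

theorem gmovie_classical' {g n : ℕ} {A B : Code} (h : GMovie g n A B) : Classical B := by
  induction h with
  | refl _ h => exact h
  | step _ _ _ ih => exact ih
  | birth _ _ _ _ ih => exact ih
  | handle _ _ _ _ _ ih => exact ih

/-- a step is a step without births or a birth -/
theorem step_cases {r3 : Bool} {D D' : Code} (h : Step r3 true D D') :
    Step true false D D' ∨ ∃ b, D' = ([], b) :: D ∧ ∃ C ∈ D, C.2 = b := by
  have hr : ∀ {E E' : List (Pass ⊕ ℕ)}, Reid r3 E E' → Reid true E E' := by
    intro E E' h
    cases h with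
    | one A B p => exact .one A B p
    | twoSame A B C p q h ho hs => exact .twoSame A B C p q h ho hs
    | twoOpp A B C p q h ho hs => exact .twoOpp A B C p q h ho hs
    | three h A B C E X Y Z t m b hT hP => exact .three rfl A B C E X Y Z t m b hT hP
  cases h with
  | perm _ _ h => exact Or.inl (.perm _ _ h)
  | rename f _ hf => exact Or.inl (.rename f _ hf)
  | rotate x y b R => exact Or.inl (.rotate x y b R)
  | reid _ _ h => exact Or.inl (.reid _ _ (hr h))
  | reidInv _ _ h => exact Or.inl (.reidInv _ _ (hr h))
  | death b R hb => exact Or.inl (.death b _ hb)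
  | birth h b R hb => exact Or.inr ⟨b, rfl, hb⟩
  | split x y b b' R hb => exact Or.inl (.split x y b b' R hb)
  | merge x y b R => exact Or.inl (.merge x y b R)

theorem gmovie_of_step {r3 : Bool} {D D' : Code} (h1 : Classical D) (h2 : Classical D')
    (h : Step r3 true D D') : ∃ n, GMovie 0 n D D' := by
  rcases step_cases h with h | ⟨b, rfl, hb⟩
  · exact ⟨0, .step h1 h (.refl _ h2)⟩
  · exact ⟨1, .birth h1 b hb (.refl _ h2)⟩

theorem gmovie_of_movie {r3 : Bool} {D D' : Code} (h : Movie r3 true D D') (hD : Classical D) :
    ∃ n, GMovie 0 n D D' := by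
  induction h with
  | refl => exact ⟨0, .refl _ hD⟩
  | tail _ h ih =>
    obtain ⟨n, ih⟩ := ih
    obtain ⟨n', h'⟩ := gmovie_of_step h.1 h.2.1 h.2.2
    exact ⟨n + n', GMovie.cast (GMovie.trans ih h') (by omega) rfl⟩

/-- number of labels -/
def nl (D : Code) : ℕ := (D.map Prod.snd).toFinset.card

theorem nl_perm {D D' : Code} (h : D.Perm D') : nl D = nl D' := by
  unfold nl
  rw [List.toFinset_eq_of_perm _ _ (h.map Prod.snd)]

theorem nl_le (D : Code) : nl D ≤ D.length := by
  unfold nl
  exact (List.toFinset_card_le _).trans (by simp)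

theorem nl_split {x y : List Pass} {b b' : ℕ} {R : Code} (hb : b ≠ b') :
    nl ((x ++ y, b) :: R.map fun C => (C.1, if C.2 = b' then b else C.2)) + 1 =
      nl ((x, b) :: (y, b') :: R) := by
  unfold nl
  have e1 : (((x ++ y, b) :: R.map fun C => (C.1, if C.2 = b' then b else C.2)).map
      Prod.snd).toFinset = insert b (((R.map Prod.snd).toFinset).erase b') := by
    ext c
    simp only [List.map_cons, List.map_map, List.mem_toFinset, List.mem_cons, List.mem_map,
      Function.comp, Finset.mem_insert, Finset.mem_erase]
    constructor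
    · rintro (h | ⟨C, hC, h⟩)
      · exact Or.inl h
      · split_ifs at h with h'
        · exact Or.inl h.symm
        · by_cases hc : c = b
          · exact Or.inl hc
          · exact Or.inr ⟨by rw [← h]; exact h', C, hC, h⟩
    · rintro (h | ⟨h1, C, hC, h⟩)
      · exact Or.inl h
      · exact Or.inr ⟨C, hC, by rw [if_neg (by rw [h]; exact h1)]; exact h⟩
  have e2 : (((x, b) :: (y, b') :: R).map Prod.snd).toFinset =
      insert b' (insert b (((R.map Prod.snd).toFinset).erase b')) := by
    ext c
    simp only [List.map_cons, List.mem_toFinset, List.mem_cons, List.mem_map, Finset.mem_insert,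
      Finset.mem_erase]
    by_cases hc : c = b'
    · simp [hc]
    · simp [hc]
  rw [e1, e2, Finset.card_insert_of_notMem (a := b')]
  simp [hb.symm]

theorem nl_death {b : ℕ} {R : Code} (hb : ∀ C ∈ R, C.2 ≠ b) : nl (([], b) :: R) = nl R + 1 := by
  unfold nl
  rw [List.map_cons, List.toFinset_cons, Finset.card_insert_of_notMem]
  simp only [List.mem_toFinset, List.mem_map, not_exists, not_and]
  exact hb

theorem nl_two {x y z : List Pass} {b : ℕ} {R : Code} :
    nl ((x, b) :: (y, b) :: R) = nl ((z, b) :: R) := by
  unfold nl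
  simp

theorem nl_of_labels {D D' : Code} (h : D.map Prod.snd = D'.map Prod.snd) :
    nl D = nl D' ∧ D.length = D'.length := by
  refine ⟨by unfold nl; rw [h], ?_⟩
  have := congrArg List.length h
  simpa using this

theorem gmovie_nil {g : ℕ} {A B : Code} (h : GMovie g 0 A B) (hA : A = []) : B = [] := by
  generalize hn : (0 : ℕ) = n at h
  induction h with
  | refl _ _ => exact hA
  | step _ hs _ ih => exact ih (step_nil hs hA) hn
  | birth => omega
  | handle x y b h _ ih => simp at hA

/-- A step run backwards, all labels being replaced by `0`: a saddle joining two components becomes a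
handle. -/
theorem step_back {D D' : Code} (h : Step true false D D') (c : Classical D) (c' : Classical D')
    (hD' : D' ≠ []) : ∃ m n, GMovie m n (zero D') (zero D) ∧
      m + (D'.length + nl D) = D.length + nl D' := by
  have z : Classical (zero D) := classical_zero c
  have z' : Classical (zero D') := classical_zero c'
  cases h with
  | perm _ _ h =>
    exact ⟨0, 0, .step z' (.perm _ _ (h.symm.map _)) (.refl _ z), by
      rw [nl_perm h, h.length_eq]; omega⟩
  | rename f _ hf =>
    obtain ⟨g, hg, hg'⟩ := renamed_renamed_inv hf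
    have : Step true false (zero (renamed f D)) (renamed g (zero (renamed f D))) := by
      refine Step.rename g _ fun p hp q hq h => ?_
      rw [passes_zero] at hp hq
      obtain ⟨p', hp', rfl⟩ := mem_renamed.1 hp
      obtain ⟨q', hq', rfl⟩ := mem_renamed.1 hq
      simp only [hg' p' hp', hg' q' hq'] at h
      simp only [h]
    have e : renamed g (zero (renamed f D)) = zero (renamed g (renamed f D)) := by
      simp [renamed, zero]
    rw [e, hg] at this
    have hl : (renamed f D).map Prod.snd = D.map Prod.snd := by simp [renamed]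
    obtain ⟨h1, h2⟩ := nl_of_labels hl
    exact ⟨0, 0, .step z' this (.refl _ z), by rw [h1, h2]; omega⟩
  | rotate x y b R =>
    refine ⟨0, 0, .step z' (Step.rotate y x 0 (zero R)) (.refl _ z), ?_⟩
    have : nl ((x ++ y, b) :: R) = nl ((y ++ x, b) :: R) := by unfold nl; simp
    rw [this]
    simp
  | reid _ _ h =>
    obtain ⟨h1, h2⟩ := nl_of_labels (labels_reid h)
    exact ⟨0, 0, .step z' (.reidInv _ _ (by rw [enc_zero, enc_zero]; exact reid_zero h))
      (.refl _ z), by rw [h1, h2]; omega⟩
  | reidInv _ _ h =>
    obtain ⟨h1, h2⟩ := nl_of_labels (labels_reid h)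
    exact ⟨0, 0, .step z' (.reid _ _ (by rw [enc_zero, enc_zero]; exact reid_zero h))
      (.refl _ z), by rw [h1, h2]; omega⟩
  | death b R hb =>
    obtain ⟨C, hC⟩ := List.exists_mem_of_ne_nil _ hD'
    exact ⟨0, 1, .birth z' 0 ⟨(C.1, 0), List.mem_map_of_mem (f := fun C => (C.1, 0)) hC, rfl⟩
      (.refl _ z), by rw [nl_death hb]; simp only [List.length_cons]; omega⟩
  | birth h b R hb => simp at h
  | split x y b b' R hb =>
    have e : zero (R.map fun C => (C.1, if C.2 = b' then b else C.2)) = zero R := by
      simp [zero]
    have z0 := z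
    simp only [zero_cons, e] at z0 ⊢
    refine ⟨0, 0, .step z' (Step.merge x y 0 (zero R)) (.refl _ z0), ?_⟩
    rw [← nl_split hb]
    simp only [List.length_cons, List.length_map]
    omega
  | merge x y b R =>
    refine ⟨1, 0, .handle x y 0 z' (.refl _ z), ?_⟩
    rw [nl_two (z := x ++ y)]
    simp only [List.length_cons]
    omega

/-- A movie without births run backwards: the number of handles. -/
theorem gmovie_rev {g : ℕ} {D D' : Code} (h : GMovie g 0 D D') (hD' : D' ≠ []) :
    ∃ m n, GMovie m n (zero D') (zero D) ∧ m + (D'.length + nl D) = g + (D.length + nl D') := by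
  generalize hn : (0 : ℕ) = k at h
  induction h with
  | refl D h => exact ⟨0, 0, .refl _ (classical_zero h), by omega⟩
  | @step g k D D₁ E hc hs hm ih =>
    subst hn
    obtain ⟨m, n, h1, h2⟩ := ih hD' rfl
    have hD₁ : D₁ ≠ [] := fun h => hD' (gmovie_nil hm h)
    obtain ⟨m', n', h3, h4⟩ := step_back hs hc (gmovie_classical hm) hD₁
    exact ⟨m + m', n + n', GMovie.trans h1 h3, by omega⟩
  | birth => omega
  | @handle g k R E x y b hc hm ih =>
    subst hn
    obtain ⟨m, n, h1, h2⟩ := ih hD' rfl
    refine ⟨m, n, ?_, ?_⟩
    · have z := classical_zero hc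
      have := GMovie.trans h1 (.step (classical_zero (gmovie_classical hm)) (Step.merge x y 0 (zero R))
        (.refl _ z) : GMovie 0 0 _ _)
      exact GMovie.cast this (by omega) (by omega)
    · rw [nl_two (z := x ++ y)] at h2
      simp only [List.length_cons] at h2 ⊢
      omega

/-- cobordisms between knots without births run backwards -/
theorem gmovie_rev_knot {g : ℕ} {K J : List Pass} (h : GMovie g 0 [(K, 0)] [(J, 0)]) :
    ∃ n, GMovie g n [(J, 0)] [(K, 0)] := by
  obtain ⟨m, n, h1, h2⟩ := gmovie_rev h (by simp)
  have h3 : ∀ w : List Pass, nl [(w, 0)] = 1 := fun w => by simp [nl]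
  rw [h3, h3] at h2
  simp only [List.length_cons, List.length_nil] at h2
  exact ⟨n, GMovie.cast h1 (by omega) rfl⟩

end Pool.Agent.H75Rib
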