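import Pool.Agent.H75Rib.Rank
import Pool.Agent.H75Rib.Rev

/-!
# Smoothing of crossings of a knot: planarity and movies
-/

namespace Pool.Agent.H75Rib

set_option linter.unusedSimpArgs false

open Pool.Agent.Y468.SR Pool.Agent.R800.AN
open Pool.Agent.Results.MP_177a0e_gt.NoBigonsInside (GMovie)

theorem smooth_key {p : Pass} {u u' : ℕ × Bool × Bool → ℤ} {s t m κ : ℤ}
    (d1 : (bU u p).1 - (bU u p).2 = s) (d2 : (fU u p).1 - (fU u p).2 = t)
    (d3 : (bU u p.mate).1 - (bU u p.mate).2 = t) (d4 : (fU u p.mate).1 - (fU u p.mate).2 = s)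
    (hκ : κ = if (xor p.isOver p.isPos) then m - t else t - m)
    (hu' : u' = fun x => if x = (p.crossing, xor p.isOver p.isPos, xor p.isOver p.isPos)
      then u x + κ else u x) :
    fU u p = bU u p.mate ∧ bU u p = fU u p.mate ∧ bU u' p = bU u p ∧
      fU u' p.mate = fU u p.mate ∧ fU u' p = bU u' p.mate ∧ (fU u' p).1 - (fU u' p).2 = m := by
  obtain ⟨c, τ, σ⟩ := p
  subst hu'
  cases τ <;> cases σ <;>
    simp only [bU, fU, Pass.corner, Pass.mate, Prod.mk.injEq, if_true, if_false, Bool.not_true,
      Bool.not_false, Bool.xor_true, Bool.xor_false, Bool.true_xor, Bool.false_xor,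
      Bool.false_eq_true, true_and, false_and, and_true, and_false, true_or, or_true, or_false,
      false_or, reduceCtorEq, and_self] at * <;>
    and_intros <;> omega

theorem bU_away {u u' : ℕ × Bool × Bool → ℤ} {c : ℕ} {e : Bool} {κ : ℤ}
    (hu' : u' = fun x => if x = (c, e, e) then u x + κ else u x) {r : Pass} (hr : r.crossing ≠ c) :
    bU u r = bU u' r ∧ fU u r = fU u' r := by
  have h : ∀ f l, r.corner f l ≠ (c, e, e) := by
    intro f l h
    exact hr (by rw [← Pass.corner_fst r f l, h])
  subst hu'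
  simp only [bU, fU, h, if_false, and_self]

/-- cutting at a crossing -/
theorem planar_cut {p : Pass} {x y : List Pass} {b b₁ b₂ : ℕ} {R : Code}
    (hx : ∀ r ∈ x, r.crossing ≠ p.crossing) (hy : ∀ r ∈ y, r.crossing ≠ p.crossing)
    (hR : ∀ C ∈ R, ∀ r ∈ C.1, r.crossing ≠ p.crossing)
    (h : Planar ((p :: (x ++ p.mate :: y), b) :: R)) :
    Planar ((p :: p.mate :: y, b₁) :: (x, b₂) :: R) := by
  intro back front h1 h2
  simp only [List.mem_cons, forall_eq_or_imp] at h1
  obtain ⟨⟨s₀, e1, e2, e3⟩, ⟨t, hx1⟩, h1⟩ := h1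
  have n1 : p.mate ≠ p := by intro h; simpa [Pass.mate] using congrArg Pass.isOver h
  have hcp := h2 p (by simp)
  have e4 : back p = front p.mate := by rw [e2] at hcp; omega
  have hne : ∀ r : Pass, r.crossing ≠ p.crossing → r ≠ p ∧ r ≠ p.mate := fun r hr =>
    ⟨fun h => hr (by rw [h]), fun h => hr (by rw [h]; rfl)⟩
  obtain ⟨back₀, hb₀⟩ : ∃ f : Pass → ℤ, f = fun r => if r = p.mate then t else back r := ⟨_, rfl⟩
  obtain ⟨front₀, hf₀⟩ : ∃ f : Pass → ℤ, f = fun r => if r = p then t else front r := ⟨_, rfl⟩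
  have haway : ∀ r : Pass, r.crossing ≠ p.crossing → back r = back₀ r ∧ front r = front₀ r := by
    intro r hr
    obtain ⟨k1, k2⟩ := hne r hr
    simp [hb₀, hf₀, k1, k2]
  obtain ⟨u, hu, hd⟩ := h back₀ front₀ (by
      simp only [List.mem_cons, forall_eq_or_imp]
      refine ⟨⟨back p, ?_, ?_⟩, fun C hC => closed_congr (fun r hr => haway r (hR C hC r hr))
        (h1 C hC)⟩
      · simp [hb₀, n1.symm]
      · refine run_append.2 ⟨t, ?_, ?_, ?_⟩
        · have : front₀ p = t := by simp [hf₀]
          rw [this]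
          exact run_congr (fun r hr => haway r (hx r hr)) hx1
        · simp [hb₀]
        · have : front₀ p.mate = front p.mate := by simp [hf₀, n1]
          rw [this, ← e1]
          exact run_congr (fun r hr => haway r (hy r hr)) e3)
    (by
      intro r hr
      by_cases c1 : r = p
      · subst c1
        simp only [hb₀, hf₀, n1, n1.symm, if_true, if_false]
        omega
      by_cases c2 : r = p.mate
      · subst c2
        simp only [hb₀, hf₀, n1, n1.symm, if_true, if_false, mate_mate']
        omega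
      have h3 := h2 r (by
        simp only [passes_cons, List.mem_append, List.mem_cons] at hr ⊢
        tauto)
      have c3 : r.mate ≠ p := by rintro rfl; simp at c2
      have c4 : r.mate ≠ p.mate := fun h => c1 (by simpa using congrArg Pass.mate h)
      simp only [hb₀, hf₀, c1, c2, c3, c4, if_false]
      exact h3)
  replace hu : ∀ C ∈ ((p :: (x ++ p.mate :: y), b) :: R), Closed (bU u) (fU u) C.1 := hu
  simp only [List.mem_cons, forall_eq_or_imp] at hu
  obtain ⟨⟨S, f1, f2⟩, hu⟩ := hu
  obtain ⟨S', f3, f4, f5⟩ := run_append.1 f2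
  have hdp := hd p (by simp)
  have hdp' := hd p.mate (by simp)
  simp only [hb₀, hf₀, n1, n1.symm, if_true, if_false] at hdp hdp'
  obtain ⟨κ, hκ⟩ : ∃ κ : ℤ, κ = if (xor p.isOver p.isPos) then front p - t else t - front p :=
    ⟨_, rfl⟩
  obtain ⟨u', hu'⟩ : ∃ u' : ℕ × Bool × Bool → ℤ, u' = fun x =>
    if x = (p.crossing, xor p.isOver p.isPos, xor p.isOver p.isPos) then u x + κ
      else u x := ⟨_, rfl⟩
  obtain ⟨k1, k2, k3, k4, k5, k6⟩ := smooth_key hdp.1 hdp.2 hdp'.1 (by rw [e4]; exact hdp'.2) hκ hu'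
  have ha : ∀ r : Pass, r.crossing ≠ p.crossing → bU u r = bU u' r ∧ fU u r = fU u' r :=
    fun r hr => bU_away hu' hr
  refine ⟨u', ?_, fun r hr => ?_⟩
  · change ∀ C ∈ ((p :: p.mate :: y, b₁) :: (x, b₂) :: R), Closed (bU u') (fU u') C.1
    simp only [List.mem_cons, forall_eq_or_imp]
    refine ⟨⟨S, ?_, k5, ?_⟩, ⟨S', ?_⟩, fun C hC =>
      closed_congr (fun r hr => ha r (hR C hC r hr)) (hu C hC)⟩
    · rw [f1]; exact k3.symm
    · rw [k4]
      exact run_congr (fun r hr => ha r (hy r hr)) f5
    · have : fU u p = S' := by rw [f4, k1]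
      rw [this] at f3
      exact run_congr (fun r hr => ha r (hx r hr)) f3
  · change (bU u' r).1 - (bU u' r).2 = back r ∧ (fU u' r).1 - (fU u' r).2 = front r
    by_cases c1 : r = p
    · subst c1
      exact ⟨by rw [k3]; exact hdp.1, k6⟩
    by_cases c2 : r = p.mate
    · subst c2
      exact ⟨by rw [← k5, k6, e2], by rw [k4]; exact hdp'.2⟩
    have hr' : r ∈ passes ((p :: (x ++ p.mate :: y), b) :: R) := by
      simp only [passes_cons, List.mem_append, List.mem_cons] at hr ⊢
      tauto
    have hrc : r.crossing ≠ p.crossing := by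
      simp only [passes_cons, List.mem_append, List.mem_cons, c1, c2, false_or] at hr
      rcases hr with hr | hr | hr
      · exact hy r hr
      · exact hx r hr
      · obtain ⟨C, hC, hr⟩ := mem_passes.1 hr
        exact hR C hC r hr
    have h3 := hd r hr'
    change (bU u r).1 - (bU u r).2 = back₀ r ∧ (fU u r).1 - (fU u r).2 = front₀ r at h3
    rw [← (ha r hrc).1, ← (ha r hrc).2, h3.1, h3.2]
    exact ⟨(haway r hrc).1.symm, (haway r hrc).2.symm⟩

/-- joining at a crossing of two components -/
theorem planar_join {p : Pass} {x y : List Pass} {b b₁ b₂ : ℕ} {R : Code}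
    (hx : ∀ r ∈ x, r.crossing ≠ p.crossing) (hy : ∀ r ∈ y, r.crossing ≠ p.crossing)
    (hR : ∀ C ∈ R, ∀ r ∈ C.1, r.crossing ≠ p.crossing)
    (h : Planar ((p :: x, b₁) :: (p.mate :: y, b₂) :: R)) :
    Planar ((p :: p.mate :: (y ++ x), b) :: R) := by
  intro back front h1 h2
  simp only [List.mem_cons, forall_eq_or_imp] at h1
  obtain ⟨⟨s₀, e1, e2, e3⟩, h1⟩ := h1
  obtain ⟨t, hy1, hx1⟩ := run_append.1 e3
  have n1 : p.mate ≠ p := by intro h; simpa [Pass.mate] using congrArg Pass.isOver h
  have hcp := h2 p (by simp)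
  have e4 : back p = front p.mate := by rw [e2] at hcp; omega
  have hne : ∀ r : Pass, r.crossing ≠ p.crossing → r ≠ p ∧ r ≠ p.mate := fun r hr =>
    ⟨fun h => hr (by rw [h]), fun h => hr (by rw [h]; rfl)⟩
  obtain ⟨back₀, hb₀⟩ : ∃ f : Pass → ℤ, f = fun r => if r = p.mate then t else back r := ⟨_, rfl⟩
  obtain ⟨front₀, hf₀⟩ : ∃ f : Pass → ℤ, f = fun r => if r = p then t else front r := ⟨_, rfl⟩
  have haway : ∀ r : Pass, r.crossing ≠ p.crossing → back r = back₀ r ∧ front r = front₀ r := by
    intro r hr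
    obtain ⟨k1, k2⟩ := hne r hr
    simp [hb₀, hf₀, k1, k2]
  obtain ⟨u, hu, hd⟩ := h back₀ front₀ (by
      simp only [List.mem_cons, forall_eq_or_imp]
      refine ⟨⟨back p, ?_, ?_⟩, ⟨t, ?_, ?_⟩,
        fun C hC => closed_congr (fun r hr => haway r (hR C hC r hr)) (h1 C hC)⟩
      · simp [hb₀, n1.symm]
      · have : front₀ p = t := by simp [hf₀]
        rw [this, ← e1]
        exact run_congr (fun r hr => haway r (hx r hr)) hx1
      · simp [hb₀]
      · have : front₀ p.mate = front p.mate := by simp [hf₀, n1]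
        rw [this]
        exact run_congr (fun r hr => haway r (hy r hr)) hy1)
    (by
      intro r hr
      by_cases c1 : r = p
      · subst c1
        simp only [hb₀, hf₀, n1, n1.symm, if_true, if_false]
        omega
      by_cases c2 : r = p.mate
      · subst c2
        simp only [hb₀, hf₀, n1, n1.symm, if_true, if_false, mate_mate']
        omega
      have h3 := h2 r (by
        simp only [passes_cons, List.mem_append, List.mem_cons] at hr ⊢
        tauto)
      have c3 : r.mate ≠ p := by rintro rfl; simp at c2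
      have c4 : r.mate ≠ p.mate := fun h => c1 (by simpa using congrArg Pass.mate h)
      simp only [hb₀, hf₀, c1, c2, c3, c4, if_false]
      exact h3)
  replace hu : ∀ C ∈ ((p :: x, b₁) :: (p.mate :: y, b₂) :: R), Closed (bU u) (fU u) C.1 := hu
  simp only [List.mem_cons, forall_eq_or_imp] at hu
  obtain ⟨⟨S, f1, f2⟩, ⟨S', f3, f4⟩, hu⟩ := hu
  have hdp := hd p (by simp)
  have hdp' := hd p.mate (by simp)
  simp only [hb₀, hf₀, n1, n1.symm, if_true, if_false] at hdp hdp'
  obtain ⟨κ, hκ⟩ : ∃ κ : ℤ, κ = if (xor p.isOver p.isPos) then front p - t else t - front p :=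
    ⟨_, rfl⟩
  obtain ⟨u', hu'⟩ : ∃ u' : ℕ × Bool × Bool → ℤ, u' = fun x =>
    if x = (p.crossing, xor p.isOver p.isPos, xor p.isOver p.isPos) then u x + κ
      else u x := ⟨_, rfl⟩
  obtain ⟨k1, k2, k3, k4, k5, k6⟩ := smooth_key hdp.1 hdp.2 hdp'.1 (by rw [e4]; exact hdp'.2) hκ hu'
  have ha : ∀ r : Pass, r.crossing ≠ p.crossing → bU u r = bU u' r ∧ fU u r = fU u' r :=
    fun r hr => bU_away hu' hr
  refine ⟨u', ?_, fun r hr => ?_⟩
  · change ∀ C ∈ ((p :: p.mate :: (y ++ x), b) :: R), Closed (bU u') (fU u') C.1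
    simp only [List.mem_cons, forall_eq_or_imp]
    refine ⟨⟨S, ?_, k5, ?_⟩, fun C hC =>
      closed_congr (fun r hr => ha r (hR C hC r hr)) (hu C hC)⟩
    · rw [f1]; exact k3.symm
    · rw [k4]
      refine run_append.2 ⟨S', run_congr (fun r hr => ha r (hy r hr)) f4, ?_⟩
      have : S' = fU u p := by rw [f3, k1]
      rw [this]
      exact run_congr (fun r hr => ha r (hx r hr)) f2
  · change (bU u' r).1 - (bU u' r).2 = back r ∧ (fU u' r).1 - (fU u' r).2 = front r
    by_cases c1 : r = p
    · subst c1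
      exact ⟨by rw [k3]; exact hdp.1, k6⟩
    by_cases c2 : r = p.mate
    · subst c2
      exact ⟨by rw [← k5, k6, e2], by rw [k4]; exact hdp'.2⟩
    have hr' : r ∈ passes ((p :: x, b₁) :: (p.mate :: y, b₂) :: R) := by
      simp only [passes_cons, List.mem_append, List.mem_cons] at hr ⊢
      tauto
    have hrc : r.crossing ≠ p.crossing := by
      simp only [passes_cons, List.mem_append, List.mem_cons, c1, c2, false_or] at hr
      rcases hr with (hr | hr) | hr
      · exact hy r hr
      · exact hx r hr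
      · obtain ⟨C, hC, hr⟩ := mem_passes.1 hr
        exact hR C hC r hr
    have h3 := hd r hr'
    change (bU u r).1 - (bU u r).2 = back₀ r ∧ (fU u r).1 - (fU u r).2 = front₀ r at h3
    rw [← (ha r hrc).1, ← (ha r hrc).2, h3.1, h3.2]
    exact ⟨(haway r hrc).1.symm, (haway r hrc).2.symm⟩

/-! ### movies -/

theorem enc_kink (p : Pass) (y : List Pass) (b : ℕ) (R : Code) :
    enc ((p :: p.mate :: y, b) :: R) = [] ++ two p p.mate ++ enc ((y, b) :: R) := by
  simp [two]

theorem classical_kink {p : Pass} {y : List Pass} {b : ℕ} {R : Code}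
    (h : Classical ((p :: p.mate :: y, b) :: R)) : Classical ((y, b) :: R) := by
  have hw : WF ([p, p.mate] ++ passes ((y, b) :: R)) := by
    have := wf_iff.1 h.1
    simpa [passes_cons] using this
  refine ⟨hw.remove (by simp), planar_iff.2 ?_⟩
  have := planarE_one (A := []) (B := enc ((y, b) :: R)) (p := p) (fun r hr => ?_)
    (by rw [← enc_kink]; exact planar_iff.1 h.2)
  · simpa using this
  · rw [List.nil_append, pl_enc] at hr
    exact hw.ne_crossing (by simp) (by simp) hr

theorem gm_kink {p : Pass} {y : List Pass} {b : ℕ} {R : Code}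
    (h : Classical ((p :: p.mate :: y, b) :: R)) :
    GMovie 0 0 ((p :: p.mate :: y, b) :: R) ((y, b) :: R) :=
  .step h (.reid _ _ (by
    rw [enc_kink]
    exact Reid.one [] (enc ((y, b) :: R)) p)) (.refl _ (classical_kink h))

theorem gm_rotate {x y : List Pass} {b : ℕ} {R : Code} (h : Classical ((x ++ y, b) :: R)) :
    GMovie 0 0 ((x ++ y, b) :: R) ((y ++ x, b) :: R) :=
  .step h (.rotate x y b R) (.refl _ (classical_rotate h))

theorem gm_perm {D D' : Code} (h : Classical D) (hp : D.Perm D') : GMovie 0 0 D D' :=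
  .step h (.perm _ _ hp) (.refl _ (classical_perm hp h))

/-- A crossing of a component with itself is smoothed by a handle. -/
theorem gm_cut {p : Pass} {x y : List Pass} {b : ℕ} {R : Code}
    (h : Classical ((p :: (x ++ p.mate :: y), b) :: R)) :
    GMovie 1 0 ((p :: (x ++ p.mate :: y), b) :: R) ((y, b) :: (x, b) :: R) := by
  have hperm : (passes ((p :: (x ++ p.mate :: y), b) :: R)).Perm
      ([p, p.mate] ++ (x ++ (y ++ passes R))) := by
    simp only [passes_cons, List.cons_append, List.nil_append, List.append_assoc]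
    exact List.Perm.cons _ List.perm_middle
  have hw : WF ([p, p.mate] ++ (x ++ (y ++ passes R))) := WF.perm hperm (wf_iff.1 h.1)
  have hne : ∀ r ∈ x ++ (y ++ passes R), r.crossing ≠ p.crossing := fun r hr =>
    hw.ne_crossing (by simp) (by simp) hr
  have c1 : Classical ((p :: p.mate :: y, b) :: (x, b) :: R) := by
    refine ⟨?_, planar_cut (fun r hr => hne r (by simp [hr])) (fun r hr => hne r (by simp [hr]))
      (fun C hC r hr => hne r ?_) h.2⟩
    · refine WF.perm ?_ hw
      simp only [passes_cons, List.cons_append, List.nil_append]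
      refine List.Perm.cons _ (List.Perm.cons _ ?_)
      rw [← List.append_assoc, ← List.append_assoc]
      exact List.Perm.append_right _ List.perm_append_comm
    · have : r ∈ passes R := mem_passes.2 ⟨C, hC, hr⟩
      simp [this]
  have hp1 : List.Perm (((p.mate :: y) ++ [p], b) :: (x, b) :: R)
      ((x, b) :: ((p.mate :: y) ++ [p], b) :: R) := List.Perm.swap _ _ _
  have c2 : Classical (((p.mate :: y) ++ [p], b) :: (x, b) :: R) :=
    classical_rotate (x := [p]) (y := p.mate :: y) (b := b) c1
  have c3 : Classical ((x, b) :: ((p.mate :: y) ++ [p], b) :: R) := classical_perm hp1 c2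
  have c4 : Classical ((x ++ ((p.mate :: y) ++ [p]), b) :: R) := by
    have := classical_rotate (x := [p]) (y := x ++ p.mate :: y) (b := b) (b' := b) h
    simpa using this
  have m1 : GMovie 0 0 ((p :: (x ++ p.mate :: y), b) :: R)
      ((x ++ ((p.mate :: y) ++ [p]), b) :: R) := by
    have := gm_rotate (x := [p]) (y := x ++ p.mate :: y) (b := b) (R := R) h
    simpa using this
  have m2 : GMovie 1 0 ((x ++ ((p.mate :: y) ++ [p]), b) :: R)
      ((x, b) :: ((p.mate :: y) ++ [p], b) :: R) := .handle x _ b c4 (.refl _ c3)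
  have m3 := gm_perm c3 hp1.symm
  have m4 := gm_rotate c2
  have m5 := gm_kink c1
  exact GMovie.cast (GMovie.trans m1 (GMovie.trans m2 (GMovie.trans m3 (GMovie.trans m4 m5))))
    rfl rfl

/-- A crossing of two components is smoothed by a saddle joining them. -/
theorem gm_join {p : Pass} {x y : List Pass} {b : ℕ} {R : Code}
    (h : Classical ((p :: x, b) :: (p.mate :: y, b) :: R)) :
    GMovie 0 0 ((p :: x, b) :: (p.mate :: y, b) :: R) ((y ++ x, b) :: R) := by
  have hperm : (passes ((p :: x, b) :: (p.mate :: y, b) :: R)).Perm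
      ([p, p.mate] ++ (x ++ (y ++ passes R))) := by
    simp only [passes_cons, List.cons_append, List.nil_append]
    exact List.Perm.cons _ List.perm_middle
  have hw : WF ([p, p.mate] ++ (x ++ (y ++ passes R))) := WF.perm hperm (wf_iff.1 h.1)
  have hne : ∀ r ∈ x ++ (y ++ passes R), r.crossing ≠ p.crossing := fun r hr =>
    hw.ne_crossing (by simp) (by simp) hr
  have c1 : Classical ((p :: p.mate :: (y ++ x), b) :: R) := by
    refine ⟨?_, planar_join (fun r hr => hne r (by simp [hr])) (fun r hr => hne r (by simp [hr]))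
      (fun C hC r hr => hne r ?_) h.2⟩
    · refine WF.perm ?_ hw
      simp only [passes_cons, List.cons_append, List.nil_append]
      refine List.Perm.cons _ (List.Perm.cons _ ?_)
      rw [← List.append_assoc]
      exact List.Perm.append_right _ List.perm_append_comm
    · have : r ∈ passes R := mem_passes.2 ⟨C, hC, hr⟩
      simp [this]
  have c2 : Classical (((p.mate :: y ++ x) ++ [p], b) :: R) := by
    have := classical_rotate (x := [p]) (y := p.mate :: (y ++ x)) (b := b) (b' := b) c1
    simpa using this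
  have c3 : Classical ((x ++ [p] ++ p.mate :: y, b) :: R) := by
    have := classical_rotate (x := p.mate :: y) (y := x ++ [p]) (b := b) (b' := b) (R := R)
      (by simpa using c2)
    simpa using this
  have m1 := gm_rotate (x := [p]) (y := x) (b := b) (R := (p.mate :: y, b) :: R) h
  have c0 : Classical ((x ++ [p], b) :: (p.mate :: y, b) :: R) := gmovie_classical' m1
  have m2 : GMovie 0 0 ((x ++ [p], b) :: (p.mate :: y, b) :: R)
      ((x ++ [p] ++ p.mate :: y, b) :: R) := .step c0 (.merge _ _ b R) (.refl _ c3)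
  have m3 : GMovie 0 0 ((x ++ [p] ++ p.mate :: y, b) :: R) ((p :: p.mate :: (y ++ x), b) :: R) := by
    have := gm_rotate (x := x) (y := p :: p.mate :: y) (b := b) (R := R) (by simpa using c3)
    simpa using this
  exact GMovie.cast (GMovie.trans m1 (GMovie.trans m2 (GMovie.trans m3 (gm_kink c1)))) rfl rfl

/-- The pivot: two interlaced crossings of a component are smoothed. -/
theorem gm_pivot {p q : Pass} {A B C D : List Pass} {b : ℕ} {R : Code}
    (h : Classical ((w0 p q A B C D, b) :: R)) :
    GMovie 1 0 ((w0 p q A B C D, b) :: R) ((w1 A B C D, b) :: R) := by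
  have e0 : w0 p q A B C D = p :: ((A ++ q :: B) ++ p.mate :: (C ++ q.mate :: D)) := by
    simp [w0]
  rw [e0] at h ⊢
  have m1 := gm_cut h
  have m2 := gm_rotate (gmovie_classical' m1)
  have m3 := gm_perm (gmovie_classical' m2) (List.Perm.swap _ _ _)
  have m4 := gm_rotate (gmovie_classical' m3)
  have c4 := gmovie_classical' m4
  have m5 := gm_join (p := q) (x := B ++ A) (y := D ++ C) (b := b) (R := R) (by simpa using c4)
  have c5 := gmovie_classical' m5
  have m6 := gm_rotate (x := D ++ C ++ B) (y := A) (b := b) (R := R) (by simpa using c5)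
  have m45 := GMovie.trans (GMovie.trans m1 m2) (GMovie.trans m3 m4)
  have m56 : GMovie 0 0 ((q :: B ++ A, b) :: (q.mate :: D ++ C, b) :: R)
      ((w1 A B C D, b) :: R) := by
    have k := GMovie.trans m5 (by simpa using m6)
    simpa [w1] using k
  exact GMovie.cast (GMovie.trans m45 m56) rfl rfl

end Pool.Agent.H75Rib
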