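import Pool.Agent.H75Rib.Heis

/-!
# Products of conjugates in the group of class two, for all labels at the same time
-/

namespace Pool.Agent.H75Rib

open Pool.Agent.Y468.SR Hs

section PC
variable {G : Type} [Group G]

theorem pc_conj_head {x g s : G} {l : List G} (h : PC (x :: l) s) : PC (g * x * g⁻¹ :: l) s := by
  cases h with
  | cons _ k r _ h => exact (PC.cons (g * x * g⁻¹) (k * g⁻¹) r l h).of_eq (by group)

theorem pc_one_cons {s : G} {l : List G} : PC (1 :: l) s ↔ PC l s := by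
  constructor
  · intro h
    cases h with
    | cons _ k r _ h => exact h.of_eq (by group)
  · intro h
    exact (PC.cons 1 1 s l h).of_eq (by group)

theorem pc_cut {x y s : G} {l : List G} (h : PC (x * y :: l) s) : PC (x :: y :: l) s := by
  cases h with
  | cons _ k r _ h => exact (PC.cons x k _ _ (PC.cons y k r l h)).of_eq (by group)

theorem pc_of_head {x s r : G} {l : List G} (h : PC l r) (e : x * r = s) : PC (x :: l) s :=
  (PC.cons x 1 r l h).of_eq (by simpa using e)

end PC

theorem pc_head {x : Hs} {l : List Hs} {c : Mx} (h : PC (x :: l) (Ze c)) :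
    ∃ r, PC l r ∧ x * r = Ze c := by
  generalize e : Ze c = t at h
  cases h with
  | cons _ g r _ h =>
    refine ⟨g⁻¹ * r * g⁻¹⁻¹, h.conj g⁻¹, ?_⟩
    have h1 : x * (g⁻¹ * r * g⁻¹⁻¹) = g⁻¹ * (g * x * g⁻¹ * r) * g := by group
    rw [h1, ← e, mul_assoc, Ze_comm, ← mul_assoc]
    group

theorem pc_join {x y : Hs} {l l' : List Hs} {c d : Mx} (h : PC (x :: l) (Ze c))
    (h' : PC (y :: l') (Ze d)) : PC (x * y :: (l ++ l')) (Ze (c + d)) := by
  obtain ⟨r, h, e⟩ := pc_head h
  obtain ⟨r', h', e'⟩ := pc_head h'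
  refine PC.perm (List.Perm.cons _ List.perm_append_comm) (pc_of_head (h'.append h) ?_)
  have h1 : x * y * (r' * r) = x * (y * r') * r := by group
  rw [h1, e', mul_assoc, Ze_comm, ← mul_assoc, e, Ze_add]

theorem pc_handle {x y : Hs} {l : List Hs} {c : Mx} (h : PC (x :: y :: l) (Ze c)) :
    ∃ g : Cu → ℤ, PC (x * y :: l) (Ze (c + om g y.v)) := by
  obtain ⟨r, h, e⟩ := pc_head h
  cases h with
  | cons _ k r _ h =>
    refine ⟨k.v, pc_of_head h ?_⟩
    rw [conj_eq] at e
    have h1 : x * y * r = x * (y * Ze (om k.v y.v) * r) * (Ze (om k.v y.v))⁻¹ := by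
      have h2 : y * Ze (om k.v y.v) * r = y * r * Ze (om k.v y.v) := by
        rw [mul_assoc, Ze_comm, ← mul_assoc]
      rw [h2]
      group
    rw [h1, e, mul_inv_eq_iff_eq_mul, ← Ze_add, add_assoc, mx_add_self, add_zero]

theorem pc_twist {g : Hs} {l₁ l₂ : List Hs} {s : Hs} {d : Mx}
    (h : PC (l₁ ++ (g * Ze d) :: l₂) s) : PC (l₁ ++ g :: l₂) (s * Ze d) := by
  have h1 : PC (g * Ze d :: (l₁ ++ l₂)) s := h.perm List.perm_middle
  refine PC.perm List.perm_middle.symm ?_
  cases h1 with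
  | cons _ k r _ h1 =>
    refine (PC.cons g k r _ h1).of_eq ?_
    have h2 : k * (g * Ze d) * k⁻¹ * r * Ze d = k * g * k⁻¹ * r * (Ze d * Ze d) := by
      have h3 : k * (g * Ze d) * k⁻¹ * r = k * g * k⁻¹ * r * Ze d := by
        rw [show k * (g * Ze d) * k⁻¹ * r = k * g * (Ze d * (k⁻¹ * r)) by group, Ze_comm]
        group
      rw [h3]; group
    rw [h2, ← Ze_add, mx_add_self, Ze_zero, mul_one]

/-! ### all labels -/

/-- the sum of the values -/
noncomputable def tot : (ℕ →₀ Mx) →+ Mx := Finsupp.liftAddHom fun _ => AddMonoidHom.id Mx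

theorem tot_single (b : ℕ) (c : Mx) : tot (Finsupp.single b c) = c := by
  simp [tot]

/-- For every label the members with this label have conjugates whose product is central, and the sum
of the central elements is `c`. -/
def St (L : List (Hs × ℕ)) (c : Mx) : Prop :=
  ∃ r : ℕ →₀ Mx, (∀ b, PC (bv L b) (Ze (r b))) ∧ tot r = c

theorem St.nil : St [] 0 := ⟨0, fun _ => PC.nil, map_zero _⟩

theorem St.perm {L L' : List (Hs × ℕ)} (hp : L.Perm L') {c : Mx} (h : St L c) : St L' c := by
  obtain ⟨r, h, e⟩ := h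
  exact ⟨r, fun b => (h b).perm (bv_perm hp b), e⟩

theorem St.one_cons {L : List (Hs × ℕ)} {b : ℕ} {c : Mx} : St ((1, b) :: L) c ↔ St L c := by
  unfold St
  refine exists_congr fun r => and_congr_left fun _ => forall_congr' fun a => ?_
  rw [bv_cons]
  split_ifs
  · exact pc_one_cons
  · exact Iff.rfl

theorem St.conj_head {L : List (Hs × ℕ)} {x : Hs} {b : ℕ} {c : Mx} (g : Hs)
    (h : St ((x, b) :: L) c) : St ((g * x * g⁻¹, b) :: L) c := by
  obtain ⟨r, h, e⟩ := h
  refine ⟨r, fun a => ?_, e⟩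
  have h1 := h a
  rw [bv_cons] at h1 ⊢
  split_ifs at h1 ⊢
  · exact pc_conj_head h1
  · exact h1

theorem St.merge {L : List (Hs × ℕ)} {x y : Hs} {b : ℕ} {c : Mx} (h : St ((x * y, b) :: L) c) :
    St ((x, b) :: (y, b) :: L) c := by
  obtain ⟨r, h, e⟩ := h
  refine ⟨r, fun a => ?_, e⟩
  have h1 := h a
  rw [bv_cons] at h1
  rw [bv_cons, bv_cons]
  split_ifs at h1 ⊢
  · exact pc_cut h1
  · exact h1

theorem St.handle {L : List (Hs × ℕ)} {x y : Hs} {b : ℕ} {c : Mx}
    (h : St ((x, b) :: (y, b) :: L) c) : ∃ g : Cu → ℤ, St ((x * y, b) :: L) (c + om g y.v) := by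
  obtain ⟨r, h, e⟩ := h
  have h0 := h b
  rw [bv_cons, bv_cons, if_pos rfl, if_pos rfl] at h0
  obtain ⟨g, hg⟩ := pc_handle h0
  refine ⟨g, r + Finsupp.single b (om g y.v), fun a => ?_, by rw [map_add, e, tot_single]⟩
  rw [bv_cons, Finsupp.add_apply, Finsupp.single_apply]
  by_cases hab : b = a
  · subst hab
    rw [if_pos rfl, if_pos rfl]
    exact hg
  · rw [if_neg hab, if_neg hab, add_zero]
    have h1 := h a
    rw [bv_cons, bv_cons, if_neg hab, if_neg hab] at h1
    exact h1

theorem St.twist {L₁ L₂ : List (Hs × ℕ)} {g : Hs} {b : ℕ} {c d : Mx}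
    (h : St (L₁ ++ (g * Ze d, b) :: L₂) c) : St (L₁ ++ (g, b) :: L₂) (c + d) := by
  obtain ⟨r, h, e⟩ := h
  have hb : ∀ (L₁ L₂ : List (Hs × ℕ)) a, bv (L₁ ++ L₂) a = bv L₁ a ++ bv L₂ a := fun L₁ L₂ a => by
    simp [bv]
  refine ⟨r + Finsupp.single b d, fun a => ?_, by rw [map_add, e, tot_single]⟩
  have h1 := h a
  rw [hb, bv_cons] at h1
  rw [hb, bv_cons, Finsupp.add_apply, Finsupp.single_apply]
  by_cases hab : b = a
  · rw [if_pos hab, Ze_add]
    rw [if_pos hab] at h1 ⊢
    exact pc_twist h1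
  · rw [if_neg hab, if_neg hab, add_zero]
    rw [if_neg hab] at h1
    exact h1

theorem St.split {L : List (Hs × ℕ)} {x y : Hs} {b b' : ℕ} (hb : b ≠ b') {c : Mx}
    (h : St ((x, b) :: (y, b') :: L) c) :
    St ((x * y, b) :: L.map fun C => (C.1, if C.2 = b' then b else C.2)) c := by
  obtain ⟨r, h, e⟩ := h
  refine ⟨r + Finsupp.single b (r b') + Finsupp.single b' (r b'), fun a => ?_, ?_⟩
  · rw [bv_cons, Finsupp.add_apply, Finsupp.add_apply, Finsupp.single_apply, Finsupp.single_apply]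
    by_cases h1 : a = b
    · subst h1
      have h1 := h a
      have h2 := h b'
      rw [bv_cons, bv_cons] at h1 h2
      simp only [if_true, hb, Ne.symm hb, if_false] at h1 h2 ⊢
      rw [add_zero]
      refine (pc_join h1 h2).perm ?_
      exact (bv_relabel L a b' hb).symm.cons _
    · by_cases h2 : a = b'
      · subst h2
        rw [bv_relabel_self _ _ _ hb, if_neg (Ne.symm h1), if_neg (Ne.symm h1), if_pos rfl, add_zero,
          mx_add_self]
        exact PC.nil
      · rw [bv_relabel_other _ _ _ _ h1 h2, if_neg (Ne.symm h1), if_neg (Ne.symm h1),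
          if_neg (Ne.symm h2), add_zero, add_zero]
        have := h a
        rw [bv_cons, bv_cons] at this
        simpa [Ne.symm h1, Ne.symm h2] using this
  · rw [map_add, map_add, tot_single, tot_single, add_assoc, mx_add_self, add_zero, e]

/-- a single member -/
theorem St.single {x : Hs} {b : ℕ} {c : Mx} (h : St [(x, b)] c) : x = Ze c := by
  obtain ⟨r, h, e⟩ := h
  have h0 := h b
  rw [bv_cons, if_pos rfl, bv_nil] at h0
  obtain ⟨s, h1, h2⟩ := pc_head h0
  have hr : r = Finsupp.single b (r b) := by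
    ext1 a
    rw [Finsupp.single_apply]
    by_cases hab : b = a
    · rw [if_pos hab, hab]
    · rw [if_neg hab]
      have h3 := h a
      rw [bv_cons, if_neg hab, bv_nil] at h3
      generalize e' : Ze (r a) = t at h3
      cases h3
      exact congrArg Hs.a e'
  rw [hr, tot_single] at e
  cases h1
  rw [mul_one, e] at h2
  exact h2

end Pool.Agent.H75Rib
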