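import Pool.Agent.H75Rib.State

/-!
# Movies of surfaces of arbitrary genus recording the double curves through the triple points
-/

namespace Pool.Agent.H75Rib

set_option linter.unusedSimpArgs false

open Pool.Agent.Y468.SR Hs
open Pool.Agent.Y874.TP (colour TriAt)
open Pool.Agent.Y874.TP2 (CStep CReid sg)
open Pool.Agent.R800.TP (ends crs curve)

/-- `FMovie Z h D T`: the classical link `D` bounds surfaces in the 4-ball (one connected surface for
each label) by a movie ending with the empty diagram, births of components and handles being allowed.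
Triple points of the projection (moves of type III) are of two kinds: either at least two of the three
double curves through the triple point have colours in `Z`, or the three double curves have colours
outside `Z`; `T` is the list of the triples of colours of the double curves at the triple points of
the second kind: the colour of the crossing of the top and the middle strand, of the top and the
bottom strand, and of the middle and the bottom strand. There are no other conditions on triple
points. The colours (names of the double curves) are kept by all steps; branch points (moves of type I)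
are allowed on double curves of even colours only. A handle cuts a component into two components of
the boundary of the same piece of surface; `h` is the number of the handles, not counting those for
which one of the two new components passes only through crossings with colours in `Z`. -/
inductive FMovie (Z : ℕ → Prop) : ℕ → Code → List (ℕ × ℕ × ℕ) → Prop
  | nil : FMovie Z 0 [] []
  | step {h : ℕ} {D D' : Code} {T : List (ℕ × ℕ × ℕ)} (hD : Classical D) (hs : CStep D D')
      (hm : FMovie Z h D' T) : FMovie Z h D T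
  | three {h : ℕ} {D D' : Code} {T : List (ℕ × ℕ × ℕ)} (hD : Classical D)
      (A B C F : List (Pass ⊕ ℕ)) (X Y W t m b : Pass × Pass) (x y z : ℕ) (hT : TriAt x y z t m b)
      (hP : List.Perm [X, Y, W] [t, m, b])
      (hE : enc D = A ++ two X.1 X.2 ++ B ++ two Y.1 Y.2 ++ C ++ two W.1 W.2 ++ F)
      (hE' : enc D' = A ++ two X.2 X.1 ++ B ++ two Y.2 Y.1 ++ C ++ two W.2 W.1 ++ F)
      (hZ : ¬Z (colour x) ∧ ¬Z (colour y) ∧ ¬Z (colour z))
      (hm : FMovie Z h D' T) : FMovie Z h D ((colour x, colour y, colour z) :: T)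
  | inner {h : ℕ} {D D' : Code} {T : List (ℕ × ℕ × ℕ)} (hD : Classical D)
      (A B C F : List (Pass ⊕ ℕ)) (X Y W t m b : Pass × Pass) (x y z : ℕ) (hT : TriAt x y z t m b)
      (hP : List.Perm [X, Y, W] [t, m, b])
      (hE : enc D = A ++ two X.1 X.2 ++ B ++ two Y.1 Y.2 ++ C ++ two W.1 W.2 ++ F)
      (hE' : enc D' = A ++ two X.2 X.1 ++ B ++ two Y.2 Y.1 ++ C ++ two W.2 W.1 ++ F)
      (hZ : Z (colour x) ∧ Z (colour y) ∨ Z (colour x) ∧ Z (colour z) ∨ Z (colour y) ∧ Z (colour z))
      (hm : FMovie Z h D' T) : FMovie Z h D T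
  | handle {h : ℕ} {R : Code} {T : List (ℕ × ℕ × ℕ)} (x y : List Pass) (b : ℕ)
      (hD : Classical ((x ++ y, b) :: R)) (hm : FMovie Z h ((x, b) :: (y, b) :: R) T) :
      FMovie Z (h + 1) ((x ++ y, b) :: R) T
  | handleZ {h : ℕ} {R : Code} {T : List (ℕ × ℕ × ℕ)} (x y : List Pass) (b : ℕ)
      (hD : Classical ((x ++ y, b) :: R)) (hy : ∀ p ∈ y, Z (colour p.crossing))
      (hm : FMovie Z h ((x, b) :: (y, b) :: R) T) : FMovie Z h ((x ++ y, b) :: R) T

open Classical in
/-- the integer vector of a passage -/
noncomputable def cv (Z : ℕ → Prop) (p : Pass) : Cu → ℤ :=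
  if Z (colour p.crossing) then 0 else Pi.single (ends p) (sg p)

/-- the value of a passage -/
noncomputable def fv (Z : ℕ → Prop) (p : Pass) : Hs := ⟨cv Z p, 0⟩

/-- the value of a word -/
noncomputable def wv (Z : ℕ → Prop) (w : List Pass) : Hs := (w.map (fv Z)).prod

/-- the values of the components -/
noncomputable def vl (Z : ℕ → Prop) (D : Code) : List (Hs × ℕ) := D.map fun C => (wv Z C.1, C.2)

variable {Z : ℕ → Prop}

@[simp] theorem wv_nil : wv Z [] = 1 := rfl
@[simp] theorem wv_cons (p : Pass) (w : List Pass) : wv Z (p :: w) = fv Z p * wv Z w := by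
  simp [wv]
@[simp] theorem wv_append (w w' : List Pass) : wv Z (w ++ w') = wv Z w * wv Z w' := by simp [wv]

/-- the values of the components read off from the encoding -/
def evF (φ : Pass → Hs) : List (Pass ⊕ ℕ) → Hs → List (Hs × ℕ)
  | [], _ => []
  | Sum.inl p :: l, g => evF φ l (g * φ p)
  | Sum.inr b :: l, g => (g, b) :: evF φ l 1

theorem evF_map_append (w : List Pass) (l : List (Pass ⊕ ℕ)) (g : Hs) :
    evF (fv Z) (w.map Sum.inl ++ l) g = evF (fv Z) l (g * wv Z w) := by
  induction w generalizing g with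
  | nil => simp
  | cons p w ih => simp [evF, ih, mul_assoc]

theorem evF_enc (D : Code) : evF (fv Z) (enc D) 1 = vl Z D := by
  unfold vl
  induction D with
  | nil => rfl
  | cons C D ih => simp [evF_map_append, evF, ih]

theorem evF_insert (φ : Pass → Hs) (A B : List (Pass ⊕ ℕ)) (p q : Pass) (h : φ p * φ q = 1)
    (g : Hs) : evF φ (A ++ two p q ++ B) g = evF φ (A ++ B) g := by
  induction A generalizing g with
  | nil => simp [two, evF, mul_assoc, h]
  | cons a A ih =>
    rcases a with p | b
    · simpa [evF] using ih _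
    · simpa [evF] using ih 1

theorem om_symm (v w : Cu → ℤ) : om v w = om w v := add_comm _ _

theorem evF_central (φ : Pass → Hs) (d : Mx) (B : List (Pass ⊕ ℕ)) (hB : ∃ b, Sum.inr b ∈ B)
    (g : Hs) : ∃ g' b L, evF φ B g = (g', b) :: L ∧ evF φ B (g * Ze d) = (g' * Ze d, b) :: L := by
  induction B generalizing g with
  | nil => simp at hB
  | cons a B ih =>
    rcases a with p | b
    · have hB' : ∃ b, Sum.inr b ∈ B := by simpa using hB
      obtain ⟨g', b, L, h1, h2⟩ := ih hB' (g * φ p)
      refine ⟨g', b, L, h1, ?_⟩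
      rw [evF, ← h2]
      congr 1
      rw [mul_assoc, Ze_comm, ← mul_assoc]
    · exact ⟨g, b, evF φ B 1, rfl, rfl⟩

theorem evF_swap (φ : Pass → Hs) (A B : List (Pass ⊕ ℕ)) (p q : Pass) (hB : ∃ b, Sum.inr b ∈ B)
    (g : Hs) : ∃ L₁ g' b L₂, evF φ (A ++ two p q ++ B) g = L₁ ++ (g', b) :: L₂ ∧
      evF φ (A ++ two q p ++ B) g = L₁ ++ (g' * Ze (om (φ p).v (φ q).v), b) :: L₂ := by
  induction A generalizing g with
  | nil =>
    obtain ⟨g', b, L, h1, h2⟩ := evF_central φ (om (φ p).v (φ q).v) B hB (g * φ p * φ q)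
    refine ⟨[], g', b, L, h1, ?_⟩
    simp only [List.nil_append]
    rw [← h2]
    simp only [two, List.cons_append, List.nil_append, evF]
    congr 1
    rw [mul_assoc, comm_eq (φ q) (φ p), om_symm]
    simp only [mul_assoc]
  | cons a A ih =>
    rcases a with r | b
    · exact ih (g * φ r)
    · obtain ⟨L₁, g', b', L₂, h1, h2⟩ := ih 1
      exact ⟨(g, b) :: L₁, g', b', L₂, by simpa [evF] using h1, by simpa [evF] using h2⟩

theorem st_swap {φ : Pass → Hs} {A B : List (Pass ⊕ ℕ)} {p q : Pass} (hB : ∃ b, Sum.inr b ∈ B)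
    {c : Mx} (h : St (evF φ (A ++ two q p ++ B) 1) c) :
    St (evF φ (A ++ two p q ++ B) 1) (c + om (φ p).v (φ q).v) := by
  obtain ⟨L₁, g', b, L₂, h1, h2⟩ := evF_swap φ A B p q hB 1
  rw [h2] at h
  rw [h1]
  exact h.twist

theorem enc_last (D : Code) : enc D = [] ∨ ∃ b, (enc D).getLast? = some (Sum.inr b) := by
  induction D with
  | nil => exact Or.inl rfl
  | cons C D ih =>
    refine Or.inr ?_
    rw [enc_cons]
    rcases ih with h | ⟨b, h⟩
    · exact ⟨C.2, by rw [h]; simp⟩
    · refine ⟨b, ?_⟩
      rw [List.getLast?_append_cons, List.getLast?_cons, h]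
      simp

theorem inr_mem {D : Code} {A F : List (Pass ⊕ ℕ)} {p q : Pass} (h : enc D = A ++ two p q ++ F) :
    ∃ b, Sum.inr b ∈ F := by
  rcases enc_last D with h1 | ⟨b, h1⟩
  · rw [h] at h1
    simp [two] at h1
  · rw [h] at h1
    rcases F.eq_nil_or_concat with rfl | ⟨F', a, rfl⟩
    · simp [two, List.getLast?_append] at h1
    · refine ⟨b, ?_⟩
      rw [List.concat_eq_append, ← List.append_assoc, List.getLast?_concat] at h1
      simp only [Option.some.injEq] at h1
      rw [h1]
      simp

/-! ### the steps -/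

theorem sg_flip {p q : Pass} (ho : p.isOver = q.isOver) (hs : q.isPos = !p.isPos) :
    sg q = - sg p := by
  unfold sg
  rw [hs, ← ho]
  cases p.isOver <;> cases p.isPos <;> simp

theorem sg_mate (p : Pass) : sg p.mate = - sg p := by
  obtain ⟨c, o, s⟩ := p
  cases o <;> cases s <;> simp [sg, Pass.mate]

theorem ps_ne {κ a : Cu} (h : a ≠ κ) (s : ℤ) : (Pi.single κ s : Cu → ℤ) a = 0 := by
  rw [Pi.single_apply, if_neg h]

theorem be_single (κ : Cu) (s t : ℤ) :
    be (Pi.single κ s) (Pi.single κ t) = 0 := by
  funext a l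
  simp only [be, Pi.zero_apply]
  split_ifs with h
  · rfl
  · by_cases h1 : a = κ
    · subst h1
      rw [ps_ne (Ne.symm h) t]
      simp
    · rw [ps_ne h1 s]
      simp

theorem fv_mul {p q : Pass} (hc : colour p.crossing = colour q.crossing) (he : ends p = ends q)
    (hs : sg q = - sg p) : fv Z p * fv Z q = 1 := by
  unfold fv cv
  rw [← hc, ← he, hs]
  split_ifs
  · ext1 <;> simp [be_zero_left]
  · ext1
    · simp only [mul_v, one_v]
      rw [← Pi.single_add, add_neg_cancel, Pi.single_zero]
    · simp only [mul_a, one_a, be_single, add_zero]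

theorem ends_mate {p : Pass} (h : colour p.crossing % 2 = 0) : ends p = ends p.mate := by
  unfold ends curve
  simp [h]

theorem ends_congr {p q : Pass} (hc : colour p.crossing = colour q.crossing)
    (ho : p.isOver = q.isOver) : ends p = ends q := by
  unfold ends
  rw [hc, ho]

theorem creid_st {E E' : List (Pass ⊕ ℕ)} (h : CReid E E') :
    evF (fv Z) E 1 = evF (fv Z) E' 1 := by
  cases h with
  | one A B p hc => exact evF_insert _ A B p p.mate (fv_mul rfl (ends_mate hc) (sg_mate p)) 1
  | twoSame A B C p q h ho hs hc =>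
    have h1 : fv Z p * fv Z q = 1 := fv_mul hc (ends_congr hc ho) (sg_flip ho hs)
    have h2 : fv Z p.mate * fv Z q.mate = 1 :=
      fv_mul hc (ends_congr hc (by simp [ho])) (sg_flip (by simp [ho]) (by simp [hs]))
    rw [evF_insert _ (A ++ two p q ++ B) C p.mate q.mate h2]
    rw [List.append_assoc, evF_insert _ A (B ++ C) p q h1, List.append_assoc]
  | twoOpp A B C p q h ho hs hc =>
    have h1 : fv Z p * fv Z q = 1 := fv_mul hc (ends_congr hc ho) (sg_flip ho hs)
    have h2 : fv Z q.mate * fv Z p.mate = 1 :=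
      fv_mul hc.symm (ends_congr hc.symm (by simp [ho])) (sg_flip (by simp [ho]) (by simp [hs]))
    rw [evF_insert _ (A ++ two p q ++ B) C q.mate p.mate h2]
    rw [List.append_assoc, evF_insert _ A (B ++ C) p q h1, List.append_assoc]

theorem vl_renamed {f : ℕ → ℕ} {D : Code}
    (hc : ∀ p ∈ passes D, colour (f p.crossing) = colour p.crossing) :
    vl Z (renamed f D) = vl Z D := by
  unfold vl renamed
  rw [List.map_map]
  refine List.map_congr_left fun C hC => ?_
  simp only [Function.comp, Prod.mk.injEq, and_true]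
  have hw : ∀ r ∈ C.1, r ∈ passes D := fun r hr => mem_passes.2 ⟨C, hC, hr⟩
  revert hw
  generalize C.1 = w
  intro hw
  induction w with
  | nil => rfl
  | cons r w ih =>
    rw [List.map_cons, wv_cons, wv_cons, ih fun r' hr' => hw r' (by simp [hr'])]
    congr 1
    have h1 := hc r (hw r (by simp))
    have h2 : ends ⟨f r.crossing, r.isOver, r.isPos⟩ = ends r := by
      unfold ends
      simp only [h1]
    have h3 : sg ⟨f r.crossing, r.isOver, r.isPos⟩ = sg r := rfl
    unfold fv cv
    rw [h2, h3]
    by_cases hz : Z (colour r.crossing)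
    · rw [if_pos hz, if_pos (by simpa only [h1] using hz)]
    · rw [if_neg hz, if_neg (by simpa only [h1] using hz)]

theorem cstep_st {D D' : Code} (hs : CStep D D') {c : Mx} (h : St (vl Z D') c) :
    St (vl Z D) c := by
  cases hs with
  | perm _ _ hp => exact h.perm ((hp.map _).symm)
  | rename f _ hf hc => rwa [vl_renamed hc] at h
  | rotate x y b R =>
    have h1 := h.conj_head (wv Z x)
    simpa [vl, mul_assoc] using h1
  | reid _ _ hr => rwa [← evF_enc, ← creid_st hr, evF_enc] at h
  | reidInv _ _ hr => rwa [← evF_enc, creid_st hr, evF_enc] at h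
  | death b R hb => exact St.one_cons.2 h
  | birth b R hb => exact St.one_cons.1 h
  | split x y b b' R hb =>
    have e : vl Z (R.map fun C => (C.1, if C.2 = b' then b else C.2)) =
        (vl Z R).map fun C => (C.1, if C.2 = b' then b else C.2) := by
      simp [vl]
    have h1 := St.split hb (x := wv Z x) (y := wv Z y) (L := vl Z R) h
    rw [← e, ← wv_append] at h1
    exact h1
  | merge x y b R =>
    have h1 : St ((wv Z x * wv Z y, b) :: vl Z R) c := by
      rw [← wv_append]
      exact h
    exact h1.merge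

/-! ### triple points -/

/-- number of crossings modulo 2 -/
def cnt (L : List (Sym2 Cu)) : Mx := fun κ l => if κ = l then 0 else (L.count s(κ, l) : ZMod 2)

theorem cnt_append (L L' : List (Sym2 Cu)) : cnt (L ++ L') = cnt L + cnt L' := by
  funext κ l
  simp only [cnt, Pi.add_apply, List.count_append]
  split_ifs
  · simp
  · push_cast; rfl

theorem om_single (κ l : Cu) {s t : ℤ} (hs : s = 1 ∨ s = -1) (ht : t = 1 ∨ t = -1) :
    om (Pi.single κ s) (Pi.single l t) = cnt [s(κ, l)] := by
  have key : ∀ (v : Cu) (s : ℤ), s = 1 ∨ s = -1 → ∀ a : Cu,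
      ((Pi.single (M := fun _ => ℤ) v s a : ℤ) : ZMod 2) = if a = v then 1 else 0 := by
    intro v s hs a
    by_cases h : a = v
    · subst h
      rw [Pi.single_eq_same, if_pos rfl]
      rcases hs with rfl | rfl
      · simp
      · decide
    · rw [Pi.single_eq_of_ne h, if_neg h]
      simp
  funext a b
  simp only [om, be, cnt, Pi.add_apply]
  split_ifs with h
  · simp
  · rw [key κ s hs, key l t ht, key l t ht, key κ s hs]
    simp only [List.count_cons, List.count_nil, beq_iff_eq, Sym2.eq_iff]
    by_cases h1 : a = κ <;> by_cases h2 : b = l <;> by_cases h3 : a = l <;> by_cases h4 : b = κ <;>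
      simp_all [eq_comm]

theorem sg_cases (p : Pass) : sg p = 1 ∨ sg p = -1 := by
  unfold sg
  split_ifs
  · exact Or.inl rfl
  · exact Or.inr rfl

theorem om_fv {p q : Pass} (hp : ¬Z (colour p.crossing)) (hq : ¬Z (colour q.crossing)) :
    om (fv Z p).v (fv Z q).v = cnt [s(ends p, ends q)] := by
  unfold fv cv
  simp only [if_neg hp, if_neg hq]
  exact om_single _ _ (sg_cases p) (sg_cases q)

theorem om_fvZ {p q : Pass} (h : Z (colour p.crossing) ∨ Z (colour q.crossing)) :
    om (fv Z p).v (fv Z q).v = 0 := by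
  unfold fv cv
  rcases h with h | h
  · simp only [if_pos h, om_zero_left]
  · simp only [if_pos h, om_zero_right]

/-- the commutator of the passages of a strand -/
noncomputable def og (Z : ℕ → Prop) (X : Pass × Pass) : Mx := om (fv Z X.1).v (fv Z X.2).v

theorem three_st {D D' : Code} {A B C F : List (Pass ⊕ ℕ)} {X Y W t m b : Pass × Pass}
    (hP : List.Perm [X, Y, W] [t, m, b])
    (hE : enc D = A ++ two X.1 X.2 ++ B ++ two Y.1 Y.2 ++ C ++ two W.1 W.2 ++ F)
    (hE' : enc D' = A ++ two X.2 X.1 ++ B ++ two Y.2 Y.1 ++ C ++ two W.2 W.1 ++ F) {c : Mx}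
    (h : St (vl Z D') c) : St (vl Z D) (c + (og Z t + og Z m + og Z b)) := by
  obtain ⟨b₀, hF⟩ := inr_mem hE
  rw [← evF_enc, hE'] at h
  rw [← evF_enc, hE]
  have h1 : St (evF (fv Z) (A ++ two X.1 X.2 ++ (B ++ two Y.2 Y.1 ++ C ++ two W.2 W.1 ++ F)) 1)
      (c + og Z X) := by
    refine st_swap ⟨b₀, by simp [hF]⟩ ?_
    simpa only [List.append_assoc] using h
  have h2 : St (evF (fv Z) (A ++ two X.1 X.2 ++ B ++ two Y.1 Y.2 ++ (C ++ two W.2 W.1 ++ F)) 1)
      (c + og Z X + og Z Y) := by
    refine st_swap ⟨b₀, by simp [hF]⟩ ?_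
    simpa only [List.append_assoc] using h1
  have h3 : St (evF (fv Z) (A ++ two X.1 X.2 ++ B ++ two Y.1 Y.2 ++ C ++ two W.1 W.2 ++ F) 1)
      (c + og Z X + og Z Y + og Z W) := by
    refine st_swap ⟨b₀, hF⟩ ?_
    simpa only [List.append_assoc] using h2
  have e := (hP.map (og Z)).sum_eq
  simp only [List.map_cons, List.map_nil, List.sum_cons, List.sum_nil, add_zero] at e
  have e2 : c + og Z X + og Z Y + og Z W = c + (og Z t + og Z m + og Z b) := by
    rw [show c + og Z X + og Z Y + og Z W = c + (og Z X + (og Z Y + og Z W)) by abel, e]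
    abel
  rwa [e2] at h3

theorem og_tri {x y z : ℕ} {t m b : Pass × Pass} (hT : TriAt x y z t m b)
    (hZ : ¬Z (colour x) ∧ ¬Z (colour y) ∧ ¬Z (colour z)) :
    og Z t + og Z m + og Z b = cnt (crs (colour x, colour y, colour z)) := by
  obtain ⟨hx, hy, hz⟩ := hZ
  have e : cnt (crs (colour x, colour y, colour z)) =
      cnt [s(curve (colour x) true, curve (colour y) true)] +
        cnt [s(curve (colour x) false, curve (colour z) true)] +
        cnt [s(curve (colour y) false, curve (colour z) false)] := by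
    rw [← cnt_append, ← cnt_append]
    rfl
  rw [e]
  cases hT with
  | mk sx sy sz τ μ β hxy hyz hxz h₁ h₂ =>
    have e1 : og Z (if τ then ((⟨x, true, sx⟩, ⟨y, true, sy⟩) : Pass × Pass)
        else (⟨y, true, sy⟩, ⟨x, true, sx⟩)) =
        cnt [s(curve (colour x) true, curve (colour y) true)] := by
      cases τ
      · simp only [Bool.false_eq_true, if_false, og]
        rw [om_symm, om_fv hx hy]; rfl
      · simp only [if_true, og]
        rw [om_fv hx hy]; rfl
    have e2 : og Z (if μ then ((⟨x, false, sx⟩, ⟨z, true, sz⟩) : Pass × Pass)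
        else (⟨z, true, sz⟩, ⟨x, false, sx⟩)) =
        cnt [s(curve (colour x) false, curve (colour z) true)] := by
      cases μ
      · simp only [Bool.false_eq_true, if_false, og]
        rw [om_symm, om_fv hx hz]; rfl
      · simp only [if_true, og]
        rw [om_fv hx hz]; rfl
    have e3 : og Z (if β then ((⟨y, false, sy⟩, ⟨z, false, sz⟩) : Pass × Pass)
        else (⟨z, false, sz⟩, ⟨y, false, sy⟩)) =
        cnt [s(curve (colour y) false, curve (colour z) false)] := by
      cases β
      · simp only [Bool.false_eq_true, if_false, og]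
        rw [om_symm, om_fv hy hz]; rfl
      · simp only [if_true, og]
        rw [om_fv hy hz]; rfl
    rw [e1, e2, e3]

theorem og_inner {x y z : ℕ} {t m b : Pass × Pass} (hT : TriAt x y z t m b)
    (hZ : Z (colour x) ∧ Z (colour y) ∨ Z (colour x) ∧ Z (colour z) ∨
      Z (colour y) ∧ Z (colour z)) : og Z t + og Z m + og Z b = 0 := by
  cases hT with
  | mk sx sy sz τ μ β hxy hyz hxz h₁ h₂ =>
    have e1 : og Z (if τ then ((⟨x, true, sx⟩, ⟨y, true, sy⟩) : Pass × Pass)
        else (⟨y, true, sy⟩, ⟨x, true, sx⟩)) = 0 := by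
      cases τ
      · exact om_fvZ (by simp only [Bool.false_eq_true, if_false]; tauto)
      · exact om_fvZ (by simp only [if_true]; tauto)
    have e2 : og Z (if μ then ((⟨x, false, sx⟩, ⟨z, true, sz⟩) : Pass × Pass)
        else (⟨z, true, sz⟩, ⟨x, false, sx⟩)) = 0 := by
      cases μ
      · exact om_fvZ (by simp only [Bool.false_eq_true, if_false]; tauto)
      · exact om_fvZ (by simp only [if_true]; tauto)
    have e3 : og Z (if β then ((⟨y, false, sy⟩, ⟨z, false, sz⟩) : Pass × Pass)
        else (⟨z, false, sz⟩, ⟨y, false, sy⟩)) = 0 := by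
      cases β
      · exact om_fvZ (by simp only [Bool.false_eq_true, if_false]; tauto)
      · exact om_fvZ (by simp only [if_true]; tauto)
    rw [e1, e2, e3]; simp

theorem wv_v_zero {y : List Pass} (hy : ∀ p ∈ y, Z (colour p.crossing)) : (wv Z y).v = 0 := by
  induction y with
  | nil => rfl
  | cons p y ih =>
    rw [wv_cons, mul_v, ih fun q hq => hy q (by simp [hq]), add_zero]
    unfold fv cv
    simp only [if_pos (hy p (by simp))]

/-- The main property of movies: the values of the components. -/
theorem fmovie_st {h : ℕ} {D : Code} {T : List (ℕ × ℕ × ℕ)} (hm : FMovie Z h D T) :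
    ∃ S : List ((Cu → ℤ) × (Cu → ℤ)), S.length = h ∧
      St (vl Z D) (cnt (T.flatMap crs) + (S.map fun s => om s.1 s.2).sum) := by
  induction hm with
  | nil =>
    refine ⟨[], rfl, ?_⟩
    have : cnt (([] : List (ℕ × ℕ × ℕ)).flatMap crs) = 0 := by
      funext κ l; simp [cnt]
    rw [this]
    have h0 : St (vl Z []) 0 := St.nil
    simpa using h0
  | step _ hs _ ih =>
    obtain ⟨S, h1, h2⟩ := ih
    exact ⟨S, h1, cstep_st hs h2⟩
  | @three h D D' T _ A B C F X Y W t m b x y z hT hP hE hE' hZ _ ih =>
    obtain ⟨S, h1, h2⟩ := ih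
    refine ⟨S, h1, ?_⟩
    have h3 := three_st hP hE hE' h2
    rw [og_tri hT hZ] at h3
    rw [List.flatMap_cons, cnt_append]
    have e : cnt (T.flatMap crs) + (S.map fun s => om s.1 s.2).sum +
        cnt (crs (colour x, colour y, colour z)) =
        cnt (crs (colour x, colour y, colour z)) + cnt (T.flatMap crs) +
          (S.map fun s => om s.1 s.2).sum := by abel
    rwa [e] at h3
  | @inner h D D' T _ A B C F X Y W t m b x y z hT hP hE hE' hZ _ ih =>
    obtain ⟨S, h1, h2⟩ := ih
    refine ⟨S, h1, ?_⟩
    have h3 := three_st hP hE hE' h2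
    rwa [og_inner hT hZ, add_zero] at h3
  | @handle h R T x y b _ _ ih =>
    obtain ⟨S, h1, h2⟩ := ih
    have h2' : St ((wv Z x, b) :: (wv Z y, b) :: vl Z R)
      (cnt (T.flatMap crs) + (S.map fun s => om s.1 s.2).sum) := h2
    obtain ⟨g, h3⟩ := h2'.handle
    refine ⟨(g, (wv Z y).v) :: S, by simp [h1], ?_⟩
    rw [← wv_append] at h3
    have e : cnt (T.flatMap crs) + (S.map fun s => om s.1 s.2).sum + om g (wv Z y).v =
        cnt (T.flatMap crs) + (((g, (wv Z y).v) :: S).map fun s => om s.1 s.2).sum := by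
      simp only [List.map_cons, List.sum_cons]
      abel
    rw [e] at h3
    exact h3
  | @handleZ h R T x y b _ hy _ ih =>
    obtain ⟨S, h1, h2⟩ := ih
    have h2' : St ((wv Z x, b) :: (wv Z y, b) :: vl Z R)
      (cnt (T.flatMap crs) + (S.map fun s => om s.1 s.2).sum) := h2
    obtain ⟨g, h3⟩ := h2'.handle
    refine ⟨S, h1, ?_⟩
    rw [← wv_append, wv_v_zero hy, om_zero_right, add_zero] at h3
    exact h3

end Pool.Agent.H75Rib
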