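import Pool.Agent.H75Rib.Smooth

/-!
# Words without interlaced curves
-/

namespace Pool.Agent.H75Rib

set_option linter.unusedSimpArgs false

open Pool.Agent.Y468.SR Hs
open Pool.Agent.Y874.TP (colour)
open Pool.Agent.Y874.TP2 (sg)
open Pool.Agent.R800.TP (ends crs curve)

theorem wv_v_filter (w : List Pass) (κ : Cu) :
    (wv (fun _ => False) w).v κ = ((w.filter fun r => ends r = κ).map sg).sum := by
  induction w with
  | nil => simp
  | cons p w ih =>
    rw [wv_cons, mul_v, Pi.add_apply, ih, List.filter_cons]
    unfold fv cv
    simp only [if_false]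
    by_cases h : ends p = κ
    · subst h
      simp
    · rw [ps_ne (Ne.symm h)]
      simp [h]

theorem fil_len (w : List Pass) (κ : Cu) :
    (w.filter fun r => ends r = κ).length = (w.map ends).count κ := by
  induction w with
  | nil => simp
  | cons p w ih =>
    rw [List.filter_cons, List.map_cons, List.count_cons]
    by_cases h : ends p = κ
    · simp [h, ih]
    · simp [h, ih]

theorem three_of {α : Type} {L : List α} (hn : L.Nodup) (hl : L.length ≤ 2) {a b c : α}
    (ha : a ∈ L) (hb : b ∈ L) (hc : c ∈ L) (h1 : a ≠ b) (h2 : a ≠ c) : b = c := by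
  rcases L with _ | ⟨x, _ | ⟨y, _ | ⟨z, L⟩⟩⟩
  · simp at ha
  · simp only [List.mem_singleton] at ha hb hc
    exact hb.trans hc.symm
  · simp only [List.mem_cons, List.not_mem_nil, or_false] at ha hb hc
    rcases ha with rfl | rfl
    · rcases hb with rfl | rfl
      · exact absurd rfl h1
      · rcases hc with rfl | rfl
        · exact absurd rfl h2
        · rfl
    · rcases hb with rfl | rfl
      · rcases hc with rfl | rfl
        · rfl
        · exact absurd rfl h2
      · exact absurd rfl h1
  · simp only [List.length_cons] at hl
    omega

theorem uniq2 {w : List Pass} {κ : Cu} (hn : w.Nodup) (hc : (w.map ends).count κ ≤ 2)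
    {a b c : Pass} (ha : a ∈ w) (hb : b ∈ w) (hc' : c ∈ w) (ea : ends a = κ) (eb : ends b = κ)
    (ec : ends c = κ) (h1 : a ≠ b) (h2 : a ≠ c) : b = c := by
  refine three_of (hn.filter fun r => decide (ends r = κ)) ?_ (a := a) ?_ ?_ ?_ h1 h2
  · rw [fil_len]; exact hc
  · simp [List.mem_filter, ha, ea]
  · simp [List.mem_filter, hb, eb]
  · simp [List.mem_filter, hc', ec]

/-- the other end of a curve -/
theorem other {w : List Pass} {κ : Cu} (hn : w.Nodup) (hc : (w.map ends).count κ ≤ 2)
    (hb : Bal w) {p : Pass} (hp : p ∈ w) (e : ends p = κ) :
    ∃ q ∈ w, q ≠ p ∧ ends q = κ ∧ sg q = - sg p := by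
  have h1 : ((w.filter fun r => ends r = κ).map sg).sum = 0 := by
    rw [← wv_v_filter, hb]; rfl
  have h2 : (w.filter fun r => ends r = κ).length ≤ 2 := by rw [fil_len]; exact hc
  have h3 : p ∈ w.filter fun r => ends r = κ := by simp [List.mem_filter, hp, e]
  have h4 : (w.filter fun r => ends r = κ).Nodup := hn.filter _
  have h5 : ∀ r ∈ w.filter fun r => ends r = κ, r ∈ w ∧ ends r = κ := by
    intro r hr
    simpa [List.mem_filter] using hr
  generalize (w.filter fun r => ends r = κ) = F at h1 h2 h3 h4 h5
  rcases F with _ | ⟨x, _ | ⟨y, _ | ⟨z, L⟩⟩⟩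
  · simp at h3
  · simp only [List.map_cons, List.map_nil, List.sum_cons, List.sum_nil, add_zero] at h1
    rcases sg_cases x with h | h <;> omega
  · simp only [List.map_cons, List.map_nil, List.sum_cons, List.sum_nil, add_zero] at h1
    have hxy : x ≠ y := by
      rintro rfl
      simp at h4
    simp only [List.mem_cons, List.not_mem_nil, or_false] at h3
    rcases h3 with rfl | rfl
    · obtain ⟨k1, k2⟩ := h5 y (by simp)
      exact ⟨y, k1, hxy.symm, k2, by omega⟩
    · obtain ⟨k1, k2⟩ := h5 x (by simp)
      exact ⟨x, k1, hxy, k2, by omega⟩
  · simp only [List.length_cons] at h2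
    omega

theorem exists_of_nn {w : List Pass} {κ : Cu} (h : nn w κ ≠ 0) : ∃ p ∈ w, ends p = κ := by
  by_contra h'
  push Not at h'
  exact h (nn_zero_of h')

theorem count_zero {w : List Pass} {κ : Cu} : (w.map ends).count κ = 0 ↔ ∀ p ∈ w, ends p ≠ κ := by
  rw [List.count_eq_zero]
  simp only [List.mem_map, not_exists, not_and, ne_eq]

theorem count_even {w : List Pass} {κ : Cu} (h : nn w κ = 0) (h2 : (w.map ends).count κ ≤ 2) :
    (w.map ends).count κ = 0 ∨ (w.map ends).count κ = 2 := by
  rw [nn_count] at h
  have h3 : (w.map ends).count κ = 0 ∨ (w.map ends).count κ = 1 ∨ (w.map ends).count κ = 2 := by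
    omega
  rcases h3 with h3 | h3 | h3
  · exact Or.inl h3
  · rw [h3] at h
    exact absurd h (by decide)
  · exact Or.inr h3

/-- the product of the labels of a word without interlaced curves -/
theorem prod_one {G : Type} [Group G] (φ : Pass → G) (n : ℕ) : ∀ w : List Pass, w.length ≤ n →
    (∀ κ, (w.map ends).count κ ≤ 2) → (∀ κ, nn w κ = 0) → (∀ κ l, κ ≠ l → ll w κ l = 0) →
    w.Pairwise (fun p q => ends p = ends q → φ p * φ q = 1) → (w.map φ).prod = 1 := by
  induction n with
  | zero =>
    intro w h1 _ _ _ _
    rw [List.eq_nil_of_length_eq_zero (by omega : w.length = 0)]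
    simp
  | succ n ih =>
    intro w h1 h2 h3 h4 h5
    rcases w with _ | ⟨p, v⟩
    · simp
    · have e0 : nn v (ends p) ≠ 0 := by
        intro h
        have := h3 (ends p)
        rw [nn_cons, if_pos rfl, h] at this
        exact absurd this (by decide)
      obtain ⟨q, hq, hqp⟩ := exists_of_nn e0
      obtain ⟨x, y, rfl⟩ := List.append_of_mem hq
      have c0 : (x.map ends).count (ends p) = 0 ∧ (y.map ends).count (ends p) = 0 := by
        have := h2 (ends p)
        rw [List.map_cons, List.count_cons_self, List.map_append, List.count_append, List.map_cons,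
          hqp, List.count_cons_self] at this
        omega
      have x0 := count_zero.1 c0.1
      have y0 := count_zero.1 c0.2
      have hc : ∀ l, (x.map ends).count l + (y.map ends).count l ≤ 2 := by
        intro l
        have := h2 l
        rw [List.map_cons, List.count_cons, List.map_append, List.count_append, List.map_cons,
          List.count_cons] at this
        omega
      have nx : ∀ l, nn x l = 0 := by
        intro l
        by_cases hl : l = ends p
        · rw [hl]; exact nn_zero_of x0
        · have h6 := h4 (ends p) l (Ne.symm hl)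
          rw [ll_cons, if_pos rfl, nn_append, nn_cons, ll_append, ll_cons, if_pos hqp,
            ll_zero_left x0, ll_zero_left y0, nn_zero_of x0, if_neg (by rw [hqp]; exact Ne.symm hl)]
            at h6
          have h7 := ch2 (nn y l)
          linear_combination h6 - h7
      have ny : ∀ l, nn y l = 0 := by
        intro l
        by_cases hl : l = ends p
        · rw [hl]; exact nn_zero_of y0
        · have h6 := h3 l
          rw [nn_cons, if_neg (Ne.symm hl), nn_append, nn_cons,
            if_neg (by rw [hqp]; exact Ne.symm hl), nx l] at h6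
          simpa using h6
      have key : ∀ l l', l ≠ l' → l ≠ ends p → l' ≠ ends p → ll x l l' + ll y l l' = 0 := by
        intro l l' h h' h''
        have h6 := h4 l l' h
        rw [ll_cons, if_neg (Ne.symm h'), ll_append, ll_cons, if_neg (by rw [hqp]; exact Ne.symm h'),
          nx l] at h6
        simpa using h6
      have lx : ∀ l l', l ≠ l' → ll x l l' = 0 := by
        intro l l' h
        rcases count_even (nx l) (by have := hc l; omega) with h6 | h6
        · exact ll_zero_left (count_zero.1 h6) l'
        · have h7 : (y.map ends).count l = 0 := by have := hc l; omega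
          by_cases hl : l = ends p
          · rw [hl, c0.1] at h6; omega
          by_cases hl' : l' = ends p
          · rw [hl']; exact ll_zero_right x0 l
          have h8 := key l l' h hl hl'
          rwa [ll_zero_left (count_zero.1 h7), add_zero] at h8
      have ly : ∀ l l', l ≠ l' → ll y l l' = 0 := by
        intro l l' h
        rcases count_even (ny l) (by have := hc l; omega) with h6 | h6
        · exact ll_zero_left (count_zero.1 h6) l'
        · have h7 : (x.map ends).count l = 0 := by have := hc l; omega
          by_cases hl : l = ends p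
          · rw [hl, c0.2] at h6; omega
          by_cases hl' : l' = ends p
          · rw [hl']; exact ll_zero_right y0 l
          have h8 := key l l' h hl hl'
          rwa [ll_zero_left (count_zero.1 h7), zero_add] at h8
      rw [List.pairwise_cons, List.pairwise_append, List.pairwise_cons] at h5
      obtain ⟨h6, h7, ⟨-, h8⟩, -⟩ := h5
      simp only [List.length_cons, List.length_append] at h1
      have px := ih x (by omega) (fun κ => by have := hc κ; omega) nx lx h7
      have py := ih y (by omega) (fun κ => by have := hc κ; omega) ny ly h8
      rw [List.map_cons, List.prod_cons, List.map_append, List.prod_append, List.map_cons,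
        List.prod_cons, px, py, one_mul, mul_one]
      exact h6 q (by simp) hqp.symm

end Pool.Agent.H75Rib
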